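import Pool.Agent.Helper29.ST.Base
import Pool.Agent.Helper18.SF.Expl

set_option autoImplicit false

/-! The averaged kernel `W = w S.A Z` is close to a half on the shadow (helper89's argument).
Let `a x v = W x v + W x (f x v)`.
(1) For `A x v = A x z = 1`, `y = f x v`, `z' = f x z`: the four relations
`W x z + W v z + W y z = 1 + e1`, `W x z' + W v z' + W y z' = 1 + e2` (block x v y),
`W x v + W z v + W z' v = 1 + e3`, `W x y + W z y + W z' y = 1 + e4` (block x z z') give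
`a x z - a x v = e1 + e2 - e3 - e4 - (W v z - W z v) - (W y z - W z y) - (W v z' - W z' v) - (W y z' - W z' y)`;
hence `∑_x ∑_{v,z} A x v A x z |a x z - a x v| ≤ 4 t n^3 + 4 n (t n^2) = 8 t n^3`
(h1, sum_swap to replace `z'` by `z`, `y` by `v`).
(2) `R x = ∑_v A x v W x v`; `∑_v A x v a x v = 2 R x` (sum_swap), so with `D x = ∑_v A x v`:
`∑_x ∑_v A x v |D x a x v - 2 R x| ≤ 8 t n^3`.
(3) `∑_v A x v W v x = ∑_v (W v x)^2` exactly (sum_ce_mul, `W v x = ce (A x) v`), so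
`|R x - E x| ≤ 3 ∑_v |W x v - W v x|`, `E x = ∑_v (W x v)^2`, and `∑_x |R x - n/6| ≤ 4 t n^2`.
(4) `(n/3) ∑_A |a x v - 1| ≤ 8 t n^3 + ∑_A |n/3 - D x| |a| + ∑_A |2 R x - n/3| ≤ 18 t n^3`,
so `∑_A |a - 1| ≤ 54 t n^2`.
(5) `2 W x v = a x v + a v x - a y x + (asymmetries of x v, x y, v y)`, `y = f x v`, so
`∑_A |2 W x v - 1| ≤ 3 * 54 t n^2 + 3 t n^2` (sum_rot, symmetry). -/

namespace Pool.Agent.Helper29.ST

open Finset Pool.Agent.Helper18.SF Pool.Agent.Helper29.TC

section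

variable {V : Type} [Fintype V] [DecidableEq V]

omit [Fintype V] [DecidableEq V] in
private theorem hl_alg (W : V → V → ℝ) (x v z y z' : V) :
    |(W x v + W x y) - (W x z + W x z')| ≤
      |W x z + W v z + W y z - 1| + |W x z' + W v z' + W y z' - 1| +
      |W x v + W z v + W z' v - 1| + |W x y + W z y + W z' y - 1| +
      |W v z - W z v| + |W y z - W z y| + |W v z' - W z' v| + |W y z' - W z' y| := by
  have h1 := le_abs_self (W x z + W v z + W y z - 1)
  have h2 := le_abs_self (W x z' + W v z' + W y z' - 1)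
  have h3 := le_abs_self (W x v + W z v + W z' v - 1)
  have h4 := le_abs_self (W x y + W z y + W z' y - 1)
  have h5 := le_abs_self (W v z - W z v)
  have h6 := le_abs_self (W y z - W z y)
  have h7 := le_abs_self (W v z' - W z' v)
  have h8 := le_abs_self (W y z' - W z' y)
  have k1 := neg_abs_le (W x z + W v z + W y z - 1)
  have k2 := neg_abs_le (W x z' + W v z' + W y z' - 1)
  have k3 := neg_abs_le (W x v + W z v + W z' v - 1)
  have k4 := neg_abs_le (W x y + W z y + W z' y - 1)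
  have k5 := neg_abs_le (W v z - W z v)
  have k6 := neg_abs_le (W y z - W z y)
  have k7 := neg_abs_le (W v z' - W z' v)
  have k8 := neg_abs_le (W y z' - W z' y)
  rw [abs_le]
  constructor <;> linarith

omit [DecidableEq V] in
private theorem hl_sw1 (S : Sys V) (x : V) (g : V → V → ℝ) :
    ∑ v, S.A x v * ∑ z, S.A x z * g v (S.f x z) = ∑ v, S.A x v * ∑ z, S.A x z * g v z :=
  Finset.sum_congr rfl fun v _ => by rw [S.sum_swap x (g v)]

omit [DecidableEq V] in
private theorem hl_sw2 (S : Sys V) (x : V) (g : V → V → ℝ) :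
    ∑ v, S.A x v * ∑ z, S.A x z * g (S.f x v) z = ∑ v, S.A x v * ∑ z, S.A x z * g v z :=
  S.sum_swap x (fun v => ∑ z, S.A x z * g v z)

omit [DecidableEq V] in
private theorem hl_comm (S : Sys V) (x : V) (g : V → V → ℝ) :
    ∑ v, S.A x v * ∑ z, S.A x z * g z v = ∑ v, S.A x v * ∑ z, S.A x z * g v z := by
  simp only [Finset.mul_sum]
  rw [Finset.sum_comm]
  exact Finset.sum_congr rfl fun v _ => Finset.sum_congr rfl fun z _ => by ring

omit [DecidableEq V] in
private theorem hl_le (S : Sys V) (x : V) (g : V → ℝ) (hg : ∀ v, 0 ≤ g v) :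
    ∑ v, S.A x v * g v ≤ ∑ v, g v :=
  Finset.sum_le_sum fun v _ => by
    have h1 := S.A_le_one x v
    have h2 := hg v
    nlinarith

omit [DecidableEq V] in
private theorem hl_le2 (S : Sys V) (x : V) (g : V → V → ℝ) (hg : ∀ v z, 0 ≤ g v z) :
    ∑ v, S.A x v * ∑ z, S.A x z * g v z ≤ ∑ v, S.A x v * ∑ z, g v z :=
  Finset.sum_le_sum fun v _ => mul_le_mul_of_nonneg_left (hl_le S x _ (hg v)) (S.A_nonneg x v)

/-- the first estimate: `a x v` hardly depends on `v` -/
private theorem hl_a (S : Sys V) (W : V → V → ℝ) (t : ℝ)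
    (h1 : ∑ x, ∑ x', S.A x x' * ∑ y, |W x y + W x' y + W (S.f x x') y - 1| ≤
      t * (Fintype.card V : ℝ) ^ 3)
    (hs : ∑ x, ∑ y, |W x y - W y x| ≤ t * (Fintype.card V : ℝ) ^ 2) :
    ∑ x, ∑ v, S.A x v * ∑ z, S.A x z *
      |(W x v + W x (S.f x v)) - (W x z + W x (S.f x z))| ≤ 8 * t * (Fintype.card V : ℝ) ^ 3 := by
  set n : ℝ := (Fintype.card V : ℝ) with hn
  have hn0 : 0 ≤ n := Nat.cast_nonneg _
  set r : V → V → V → ℝ := fun x v u => |W x u + W v u + W (S.f x v) u - 1| with hr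
  set δ : V → V → ℝ := fun u v => |W u v - W v u| with hδ
  have hr0 : ∀ x v u, 0 ≤ r x v u := fun x v u => abs_nonneg _
  have hδ0 : ∀ u v, 0 ≤ δ u v := fun u v => abs_nonneg _
  have key : ∀ x, ∑ v, S.A x v * ∑ z, S.A x z *
      |(W x v + W x (S.f x v)) - (W x z + W x (S.f x z))| ≤
      4 * ∑ v, S.A x v * ∑ z, r x v z + 4 * ∑ v, ∑ z, δ v z := by
    intro x
    have e1 : ∑ v, S.A x v * ∑ z, S.A x z *
        |(W x v + W x (S.f x v)) - (W x z + W x (S.f x z))| ≤
        ∑ v, S.A x v * ∑ z, S.A x z * (r x v z + r x v (S.f x z) + r x z v + r x z (S.f x v) +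
          δ v z + δ (S.f x v) z + δ v (S.f x z) + δ (S.f x v) (S.f x z)) := by
      refine Finset.sum_le_sum fun v _ => mul_le_mul_of_nonneg_left ?_ (S.A_nonneg x v)
      refine Finset.sum_le_sum fun z _ => mul_le_mul_of_nonneg_left ?_ (S.A_nonneg x z)
      exact hl_alg W x v z (S.f x v) (S.f x z)
    have e2 : ∑ v, S.A x v * ∑ z, S.A x z * (r x v z + r x v (S.f x z) + r x z v +
          r x z (S.f x v) + δ v z + δ (S.f x v) z + δ v (S.f x z) + δ (S.f x v) (S.f x z)) =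
        ∑ v, S.A x v * ∑ z, S.A x z * r x v z + ∑ v, S.A x v * ∑ z, S.A x z * r x v (S.f x z) +
        ∑ v, S.A x v * ∑ z, S.A x z * r x z v + ∑ v, S.A x v * ∑ z, S.A x z * r x z (S.f x v) +
        ∑ v, S.A x v * ∑ z, S.A x z * δ v z + ∑ v, S.A x v * ∑ z, S.A x z * δ (S.f x v) z +
        ∑ v, S.A x v * ∑ z, S.A x z * δ v (S.f x z) +
        ∑ v, S.A x v * ∑ z, S.A x z * δ (S.f x v) (S.f x z) := by
      simp only [← Finset.sum_add_distrib, ← mul_add]
    have e3 : ∑ v, S.A x v * ∑ z, S.A x z * r x v (S.f x z) =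
        ∑ v, S.A x v * ∑ z, S.A x z * r x v z := hl_sw1 S x (fun v z => r x v z)
    have e4 : ∑ v, S.A x v * ∑ z, S.A x z * r x z v =
        ∑ v, S.A x v * ∑ z, S.A x z * r x v z := hl_comm S x (fun v z => r x v z)
    have e5 : ∑ v, S.A x v * ∑ z, S.A x z * r x z (S.f x v) =
        ∑ v, S.A x v * ∑ z, S.A x z * r x v z := by
      rw [hl_sw2 S x (fun v z => r x z v)]
      exact e4
    have e6 : ∑ v, S.A x v * ∑ z, S.A x z * δ (S.f x v) z =
        ∑ v, S.A x v * ∑ z, S.A x z * δ v z := hl_sw2 S x δ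
    have e7 : ∑ v, S.A x v * ∑ z, S.A x z * δ v (S.f x z) =
        ∑ v, S.A x v * ∑ z, S.A x z * δ v z := hl_sw1 S x δ
    have e8 : ∑ v, S.A x v * ∑ z, S.A x z * δ (S.f x v) (S.f x z) =
        ∑ v, S.A x v * ∑ z, S.A x z * δ v z := by
      rw [hl_sw2 S x (fun v z => δ v (S.f x z))]
      exact e7
    rw [e2, e3, e4, e5, e6, e7, e8] at e1
    have e9 : ∑ v, S.A x v * ∑ z, S.A x z * r x v z ≤ ∑ v, S.A x v * ∑ z, r x v z :=
      hl_le2 S x _ (hr0 x)
    have e10 : ∑ v, S.A x v * ∑ z, S.A x z * δ v z ≤ ∑ v, ∑ z, δ v z :=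
      (hl_le2 S x _ hδ0).trans (hl_le S x _ fun v => Finset.sum_nonneg fun z _ => hδ0 v z)
    linarith
  calc ∑ x, ∑ v, S.A x v * ∑ z, S.A x z *
      |(W x v + W x (S.f x v)) - (W x z + W x (S.f x z))| ≤
      ∑ x : V, (4 * ∑ v, S.A x v * ∑ z, r x v z + 4 * ∑ v, ∑ z, δ v z) :=
        Finset.sum_le_sum fun x _ => key x
    _ = 4 * (∑ x, ∑ v, S.A x v * ∑ z, r x v z) + 4 * (n * ∑ v, ∑ z, δ v z) := by
        rw [Finset.sum_add_distrib, ← Finset.mul_sum, Finset.sum_const, Finset.card_univ,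
          nsmul_eq_mul]
        ring
    _ ≤ 4 * (t * n ^ 3) + 4 * (n * (t * n ^ 2)) := by
        have := mul_le_mul_of_nonneg_left hs hn0
        linarith
    _ = 8 * t * n ^ 3 := by ring

/-- the second estimate: the row sums over the shadow -/
private theorem hl_R (S : Sys V) (Z : Finset V) (t : ℝ)
    (W0 : ∀ x y, 0 ≤ w S.A Z x y) (W1 : ∀ x y, w S.A Z x y ≤ 1)
    (h3 : ∑ x, |∑ y, (w S.A Z x y) ^ 2 - (Fintype.card V : ℝ) / 6| ≤
      t * (Fintype.card V : ℝ) ^ 2)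
    (hs : ∑ x, ∑ y, |w S.A Z x y - w S.A Z y x| ≤ t * (Fintype.card V : ℝ) ^ 2) :
    ∑ x, |∑ v, S.A x v * w S.A Z x v - (Fintype.card V : ℝ) / 6| ≤
      4 * t * (Fintype.card V : ℝ) ^ 2 := by
  set n : ℝ := (Fintype.card V : ℝ) with hn
  have key : ∀ x, |∑ v, S.A x v * w S.A Z x v - n / 6| ≤
      3 * ∑ y, |w S.A Z x y - w S.A Z y x| + |∑ y, (w S.A Z x y) ^ 2 - n / 6| := by
    intro x
    have e1 : ∑ v, S.A x v * w S.A Z v x = ∑ v, (w S.A Z v x) ^ 2 := by
      have h := sum_ce_mul (pat S.A Z) (S.A x) (fun v => ce (pat S.A Z) (S.A x) v)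
        (fun z z' hz => ce_congr hz)
      refine Eq.trans (h.symm : _) ?_
      exact Finset.sum_congr rfl fun v _ => by rw [w, sq]
    have e2 : |∑ v, S.A x v * w S.A Z x v - ∑ v, S.A x v * w S.A Z v x| ≤
        ∑ y, |w S.A Z x y - w S.A Z y x| := by
      rw [← Finset.sum_sub_distrib]
      refine (Finset.abs_sum_le_sum_abs _ _).trans (Finset.sum_le_sum fun v _ => ?_)
      rw [← mul_sub, abs_mul, abs_of_nonneg (S.A_nonneg x v)]
      have h1 := S.A_le_one x v
      have h2 := abs_nonneg (w S.A Z x v - w S.A Z v x)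
      nlinarith
    have e3 : |∑ v, (w S.A Z v x) ^ 2 - ∑ v, (w S.A Z x v) ^ 2| ≤
        2 * ∑ y, |w S.A Z x y - w S.A Z y x| := by
      rw [← Finset.sum_sub_distrib, Finset.mul_sum]
      refine (Finset.abs_sum_le_sum_abs _ _).trans (Finset.sum_le_sum fun v _ => ?_)
      have h1 : (w S.A Z v x) ^ 2 - (w S.A Z x v) ^ 2 =
        -((w S.A Z x v - w S.A Z v x) * (w S.A Z x v + w S.A Z v x)) := by ring
      rw [h1, abs_neg, abs_mul]
      have h2 : |w S.A Z x v + w S.A Z v x| ≤ 2 := by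
        rw [abs_of_nonneg (add_nonneg (W0 _ _) (W0 _ _))]
        linarith [W1 x v, W1 v x]
      have h3 := abs_nonneg (w S.A Z x v - w S.A Z v x)
      nlinarith
    rw [e1] at e2
    have e4 : ∑ v, S.A x v * w S.A Z x v - n / 6 =
        (∑ v, S.A x v * w S.A Z x v - ∑ v, (w S.A Z v x) ^ 2) +
        (∑ v, (w S.A Z v x) ^ 2 - ∑ v, (w S.A Z x v) ^ 2) +
        (∑ y, (w S.A Z x y) ^ 2 - n / 6) := by ring
    rw [e4]
    refine (abs_add_three _ _ _).trans ?_
    linarith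
  calc ∑ x, |∑ v, S.A x v * w S.A Z x v - n / 6| ≤
      ∑ x, (3 * ∑ y, |w S.A Z x y - w S.A Z y x| + |∑ y, (w S.A Z x y) ^ 2 - n / 6|) :=
        Finset.sum_le_sum fun x _ => key x
    _ = 3 * (∑ x, ∑ y, |w S.A Z x y - w S.A Z y x|) +
        ∑ x, |∑ y, (w S.A Z x y) ^ 2 - n / 6| := by
        rw [Finset.sum_add_distrib, ← Finset.mul_sum]
    _ ≤ 3 * (t * n ^ 2) + t * n ^ 2 := by linarith
    _ = 4 * t * n ^ 2 := by ring

omit [DecidableEq V] in
/-- the third estimate -/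
private theorem hl_b (S : Sys V) (W : V → V → ℝ) (t : ℝ) (hn1 : 0 < (Fintype.card V : ℝ))
    (W0 : ∀ x y, 0 ≤ W x y) (W1 : ∀ x y, W x y ≤ 1)
    (ha : ∑ x, ∑ v, S.A x v * ∑ z, S.A x z *
      |(W x v + W x (S.f x v)) - (W x z + W x (S.f x z))| ≤ 8 * t * (Fintype.card V : ℝ) ^ 3)
    (h2 : ∑ x, |∑ y, S.A x y - (Fintype.card V : ℝ) / 3| ≤ t * (Fintype.card V : ℝ) ^ 2)
    (hR : ∑ x, |∑ v, S.A x v * W x v - (Fintype.card V : ℝ) / 6| ≤
      4 * t * (Fintype.card V : ℝ) ^ 2) :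
    ∑ x, ∑ v, S.A x v * |W x v + W x (S.f x v) - 1| ≤ 54 * t * (Fintype.card V : ℝ) ^ 2 := by
  set n : ℝ := (Fintype.card V : ℝ) with hn
  set a : V → V → ℝ := fun x v => W x v + W x (S.f x v) with had
  have ha2 : ∀ x v, |a x v| ≤ 2 := by
    intro x v
    rw [abs_of_nonneg (add_nonneg (W0 _ _) (W0 _ _))]
    linarith [W1 x v, W1 x (S.f x v)]
  have hR2 : ∀ x, ∑ z, S.A x z * a x z = 2 * ∑ v, S.A x v * W x v := by
    intro x
    have h := S.sum_swap x (W x)
    simp only [had, mul_add, Finset.sum_add_distrib]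
    rw [h]
    ring
  have key : ∀ x v, n / 3 * (S.A x v * |a x v - 1|) ≤
      2 * |∑ y, S.A x y - n / 3| + S.A x v * ∑ z, S.A x z * |a x v - a x z| +
        2 * |∑ v, S.A x v * W x v - n / 6| := by
    intro x v
    have e1 : n / 3 * (a x v - 1) = -((∑ y, S.A x y - n / 3) * a x v) +
        (∑ z, S.A x z * (a x v - a x z)) + 2 * (∑ v, S.A x v * W x v - n / 6) := by
      have e2 : ∑ z, S.A x z * (a x v - a x z) = (∑ y, S.A x y) * a x v -
          2 * ∑ v, S.A x v * W x v := by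
        rw [← hR2, Finset.sum_mul, ← Finset.sum_sub_distrib]
        exact Finset.sum_congr rfl fun z _ => by ring
      rw [e2]
      ring
    have e3 : n / 3 * |a x v - 1| ≤ 2 * |∑ y, S.A x y - n / 3| +
        ∑ z, S.A x z * |a x v - a x z| + 2 * |∑ v, S.A x v * W x v - n / 6| := by
      have e4 : n / 3 * |a x v - 1| = |n / 3 * (a x v - 1)| := by
        rw [abs_mul, abs_of_nonneg (by positivity : (0 : ℝ) ≤ n / 3)]
      rw [e4, e1]
      refine (abs_add_three _ _ _).trans ?_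
      have e5 : |-((∑ y, S.A x y - n / 3) * a x v)| ≤ 2 * |∑ y, S.A x y - n / 3| := by
        rw [abs_neg, abs_mul]
        have := ha2 x v
        have := abs_nonneg (∑ y, S.A x y - n / 3)
        nlinarith
      have e6 : |∑ z, S.A x z * (a x v - a x z)| ≤ ∑ z, S.A x z * |a x v - a x z| := by
        refine (Finset.abs_sum_le_sum_abs _ _).trans (Finset.sum_le_sum fun z _ => ?_)
        rw [abs_mul, abs_of_nonneg (S.A_nonneg x z)]
      have e7 : |2 * (∑ v, S.A x v * W x v - n / 6)| = 2 * |∑ v, S.A x v * W x v - n / 6| := by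
        rw [abs_mul, abs_two]
      linarith
    have e8 := S.A_nonneg x v
    have e9 := S.A_le_one x v
    have e10 := abs_nonneg (∑ y, S.A x y - n / 3)
    have e11 := abs_nonneg (∑ v, S.A x v * W x v - n / 6)
    calc n / 3 * (S.A x v * |a x v - 1|) = S.A x v * (n / 3 * |a x v - 1|) := by ring
      _ ≤ S.A x v * (2 * |∑ y, S.A x y - n / 3| +
        ∑ z, S.A x z * |a x v - a x z| + 2 * |∑ v, S.A x v * W x v - n / 6|) :=
          mul_le_mul_of_nonneg_left e3 e8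
      _ ≤ _ := by nlinarith
  have e12 : n / 3 * ∑ x, ∑ v, S.A x v * |a x v - 1| ≤ 18 * t * n ^ 3 := by
    calc n / 3 * ∑ x, ∑ v, S.A x v * |a x v - 1| =
        ∑ x, ∑ v, n / 3 * (S.A x v * |a x v - 1|) := by
          simp only [Finset.mul_sum]
      _ ≤ ∑ x, ∑ v : V, (2 * |∑ y, S.A x y - n / 3| + S.A x v * ∑ z, S.A x z * |a x v - a x z| +
        2 * |∑ v, S.A x v * W x v - n / 6|) :=
          Finset.sum_le_sum fun x _ => Finset.sum_le_sum fun v _ => key x v
      _ = 2 * n * (∑ x, |∑ y, S.A x y - n / 3|) +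
          ∑ x, ∑ v, S.A x v * ∑ z, S.A x z * |a x v - a x z| +
          2 * n * ∑ x, |∑ v, S.A x v * W x v - n / 6| := by
          simp only [Finset.sum_add_distrib, Finset.sum_const, Finset.card_univ, nsmul_eq_mul,
            ← Finset.mul_sum]
          rw [← hn]
          ring
      _ ≤ 2 * n * (t * n ^ 2) + 8 * t * n ^ 3 + 2 * n * (4 * t * n ^ 2) := by
          have := mul_le_mul_of_nonneg_left h2 (by positivity : (0 : ℝ) ≤ 2 * n)
          have := mul_le_mul_of_nonneg_left hR (by positivity : (0 : ℝ) ≤ 2 * n)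
          linarith
      _ = 18 * t * n ^ 3 := by ring
  have e13 : n / 3 * ∑ x, ∑ v, S.A x v * |a x v - 1| ≤ n / 3 * (54 * t * n ^ 2) := by
    refine e12.trans (le_of_eq ?_)
    ring
  exact le_of_mul_le_mul_left e13 (by positivity)

/-- the last estimate -/
private theorem hl_c (S : Sys V) (W : V → V → ℝ) (t : ℝ)
    (hb : ∑ x, ∑ v, S.A x v * |W x v + W x (S.f x v) - 1| ≤ 54 * t * (Fintype.card V : ℝ) ^ 2)
    (hs : ∑ x, ∑ y, |W x y - W y x| ≤ t * (Fintype.card V : ℝ) ^ 2) :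
    ∑ x, ∑ v, S.A x v * |W x v - 1 / 2| ≤ 165 / 2 * t * (Fintype.card V : ℝ) ^ 2 := by
  set n : ℝ := (Fintype.card V : ℝ) with hn
  set b : V → V → ℝ := fun x v => |W x v + W x (S.f x v) - 1| with hbd
  set δ : V → V → ℝ := fun u v => |W u v - W v u| with hδ
  have hδ0 : ∀ u v, 0 ≤ δ u v := fun u v => abs_nonneg _
  have key : ∀ x v, 2 * (S.A x v * |W x v - 1 / 2|) ≤
      S.A x v * (b x v + b v x + b (S.f x v) x + δ x v + δ x (S.f x v) + δ v (S.f x v)) := by
    intro x v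
    rcases S.h01 x v with h0 | h0
    · rw [h0]
      simp
    · have f1 : S.f v x = S.f x v := (S.fs x v h0).symm
      have f2 : S.f (S.f x v) x = v := by
        rw [← S.fs x (S.f x v) (S.f1 x v h0), S.f2 x v h0]
      rw [h0, one_mul, one_mul]
      simp only [hbd, hδ, f1, f2]
      have k1 := le_abs_self (W x v + W x (S.f x v) - 1)
      have k2 := le_abs_self (W v x + W v (S.f x v) - 1)
      have k3 := le_abs_self (W (S.f x v) x + W (S.f x v) v - 1)
      have k4 := le_abs_self (W x v - W v x)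
      have k5 := le_abs_self (W x (S.f x v) - W (S.f x v) x)
      have k6 := le_abs_self (W v (S.f x v) - W (S.f x v) v)
      have l1 := neg_abs_le (W x v + W x (S.f x v) - 1)
      have l2 := neg_abs_le (W v x + W v (S.f x v) - 1)
      have l3 := neg_abs_le (W (S.f x v) x + W (S.f x v) v - 1)
      have l4 := neg_abs_le (W x v - W v x)
      have l5 := neg_abs_le (W x (S.f x v) - W (S.f x v) x)
      have l6 := neg_abs_le (W v (S.f x v) - W (S.f x v) v)
      have e : 2 * |W x v - 1 / 2| = |2 * (W x v - 1 / 2)| := by rw [abs_mul, abs_two]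
      rw [e, abs_le]
      constructor <;> linarith
  have s1 : ∑ x, ∑ v, S.A x v * b v x = ∑ x, ∑ v, S.A x v * b x v := (S.sum_right b).symm
  have s2 : ∑ x, ∑ v, S.A x v * b (S.f x v) x = ∑ x, ∑ v, S.A x v * b x v := by
    have h1 := S.sum_rot (fun x _ z => b z x)
    have h2 : ∑ x, ∑ v, S.A x v * b x (S.f x v) = ∑ x, ∑ v, S.A x v * b x v := S.sum_third b
    exact h1.trans h2
  have s3 : ∑ x, ∑ v, S.A x v * δ x (S.f x v) = ∑ x, ∑ v, S.A x v * δ x v := S.sum_third δ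
  have s4 : ∑ x, ∑ v, S.A x v * δ v (S.f x v) = ∑ x, ∑ v, S.A x v * δ x v := S.sum_third' δ
  have s5 : ∑ x, ∑ v, S.A x v * δ x v ≤ t * n ^ 2 :=
    (Finset.sum_le_sum fun x _ => hl_le S x _ (hδ0 x)).trans hs
  have e1 : 2 * ∑ x, ∑ v, S.A x v * |W x v - 1 / 2| ≤
      ∑ x, ∑ v, S.A x v * b x v + ∑ x, ∑ v, S.A x v * b v x + ∑ x, ∑ v, S.A x v * b (S.f x v) x +
      ∑ x, ∑ v, S.A x v * δ x v + ∑ x, ∑ v, S.A x v * δ x (S.f x v) +
      ∑ x, ∑ v, S.A x v * δ v (S.f x v) := by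
    calc 2 * ∑ x, ∑ v, S.A x v * |W x v - 1 / 2| =
        ∑ x, ∑ v, 2 * (S.A x v * |W x v - 1 / 2|) := by simp only [Finset.mul_sum]
      _ ≤ ∑ x, ∑ v, S.A x v *
          (b x v + b v x + b (S.f x v) x + δ x v + δ x (S.f x v) + δ v (S.f x v)) :=
          Finset.sum_le_sum fun x _ => Finset.sum_le_sum fun v _ => key x v
      _ = _ := by simp only [← Finset.sum_add_distrib, ← mul_add]
  rw [s1, s2, s3, s4] at e1
  linarith

end

theorem half (V : Type) [Fintype V] [DecidableEq V] (S : Sys V) (Z : Finset V) (t : ℝ)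
    (ht : 0 ≤ t) (h : HH S (w S.A Z) t)
    (hs : ∑ x, ∑ y, |w S.A Z x y - w S.A Z y x| ≤ t * (Fintype.card V : ℝ) ^ 2) :
    HF S Z (100 * t) := by
  have hHH : HH S (w S.A Z) (100 * t) := by
    have e2 : t * (Fintype.card V : ℝ) ^ 2 ≤ 100 * t * (Fintype.card V : ℝ) ^ 2 := by
      have : 0 ≤ t * (Fintype.card V : ℝ) ^ 2 := by positivity
      linarith
    have e3 : t * (Fintype.card V : ℝ) ^ 3 ≤ 100 * t * (Fintype.card V : ℝ) ^ 3 := by
      have : 0 ≤ t * (Fintype.card V : ℝ) ^ 3 := by positivity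
      linarith
    exact ⟨h.W0, h.W1, h.h1.trans e3, h.h2.trans e2, h.h2'.trans e2, h.h3.trans e2, h.h4.trans e3,
      h.h5.trans (by linarith)⟩
  have e2 : t * (Fintype.card V : ℝ) ^ 2 ≤ 100 * t * (Fintype.card V : ℝ) ^ 2 := by
    have : 0 ≤ t * (Fintype.card V : ℝ) ^ 2 := by positivity
    linarith
  refine ⟨hHH, hs.trans e2, ?_⟩
  rcases isEmpty_or_nonempty V with hV | hV
  · simp
  · have hn1 : 0 < (Fintype.card V : ℝ) := by exact_mod_cast Fintype.card_pos
    have ha := hl_a S (w S.A Z) t h.h1 hs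
    have hR := hl_R S Z t h.W0 h.W1 h.h3 hs
    have hb := hl_b S (w S.A Z) t hn1 h.W0 h.W1 ha h.h2 hR
    have hc := hl_c S (w S.A Z) t hb hs
    refine hc.trans ?_
    have : 0 ≤ t * (Fintype.card V : ℝ) ^ 2 := by positivity
    linarith

end Pool.Agent.Helper29.ST
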