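import Pool.Agent.Helper29.ST.Base
import Pool.Agent.Helper29.TC.Lin

set_option autoImplicit false

/-! The system of a 3-graph without four edges on seven vertices, with the link to the 3-graph.
As `exists_sys` (Helper18/SF/Comb.lean, helper31): `H'` = the edges of `H` which meet every other
edge of `H` in at most one vertex; `|H \ H'| ≤ n`; `S` the system of `H'`: `A x y = 1` iff `x ≠ y`
and an edge of `H'` contains both. An edge of `H'` with two vertices in one part gives at least two
ordered pairs `(x, y)` with `A x y = 1`, `part x = part y`, different edges give different pairs. -/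

namespace Pool.Agent.Helper29.ST

open Finset Pool.Agent.Helper18.SF Pool.Agent.Helper29.TC

/-- Few edges meet another edge in at least two vertices. -/
theorem link_bad_card {V : Type} [Fintype V] [DecidableEq V] (H : Finset (Finset V))
    (h3 : ∀ e ∈ H, e.card = 3)
    (h7 : ∀ W : Finset V, W.card ≤ 7 → (H.filter (fun e => e ⊆ W)).card ≤ 3) :
    (H.filter (fun e => ∃ g ∈ H, g ≠ e ∧ 2 ≤ (e ∩ g).card)).card ≤ Fintype.card V := by
  classical
  set B := H.filter (fun e => ∃ g ∈ H, g ≠ e ∧ 2 ≤ (e ∩ g).card) with hB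
  have four := lin_four_edges H h7
  have un : ∀ a ∈ H, ∀ b ∈ H, 2 ≤ (a ∩ b).card → (a ∪ b).card ≤ 4 := by
    intro a ha b hb h
    have h1 := card_union_add_card_inter a b
    have h2 := h3 a ha
    have h4 := h3 b hb
    omega
  -- at most three bad edges at a vertex
  have hv : ∀ v : V, (B.filter (fun e => v ∈ e)).card ≤ 3 := by
    intro v
    by_contra hcon
    push Not at hcon
    have hne : (B.filter (fun e => v ∈ e)).Nonempty := by
      rw [← card_pos]; omega
    obtain ⟨a, ha⟩ := hne
    rw [mem_filter, hB, mem_filter] at ha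
    obtain ⟨⟨haH, a', ha'H, haa', haI⟩, hva⟩ := ha
    -- the others
    have key : ∀ g ∈ B.filter (fun e => v ∈ e), g ≠ a → g ≠ a' →
        (g \ (a ∪ a')).card ≤ 1 := by
      intro g hg hga hga'
      rw [mem_filter, hB, mem_filter] at hg
      obtain ⟨⟨hgH, g', hg'H, hgg', hgI⟩, hvg⟩ := hg
      have hg'm : g' = a ∨ g' = a' := by
        by_contra hno
        push Not at hno
        refine four a haH a' ha'H g hgH g' hg'H haa'.symm (Ne.symm hga) (Ne.symm hno.1)
          (Ne.symm hga') (Ne.symm hno.2) hgg'.symm ?_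
        have e1 : a ∪ a' ∪ g ∪ g' = (a ∪ a') ∪ (g ∪ g') := by
          rw [union_assoc]
        have e2 := card_union_add_card_inter (a ∪ a') (g ∪ g')
        have e3 := un a haH a' ha'H haI
        have e4 := un g hgH g' hg'H hgI
        have e5 : 1 ≤ ((a ∪ a') ∩ (g ∪ g')).card := by
          apply card_pos.mpr
          exact ⟨v, by simp [hva, hvg]⟩
        rw [e1]
        omega
      have e1 := card_sdiff_add_card_inter g (a ∪ a')
      have e2 := h3 g hgH
      have e3 : 2 ≤ (g ∩ (a ∪ a')).card := by
        refine le_trans hgI (card_le_card ?_)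
        rcases hg'm with rfl | rfl
        · intro x hx
          simp only [mem_inter, mem_union] at hx ⊢
          exact ⟨hx.1, Or.inl hx.2⟩
        · intro x hx
          simp only [mem_inter, mem_union] at hx ⊢
          exact ⟨hx.1, Or.inr hx.2⟩
      omega
    have hcard : 2 ≤ (((B.filter (fun e => v ∈ e)).erase a).erase a').card := by
      have h1 := pred_card_le_card_erase (s := B.filter (fun e => v ∈ e)) (a := a)
      have h2 := pred_card_le_card_erase (s := (B.filter (fun e => v ∈ e)).erase a) (a := a')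
      omega
    obtain ⟨g, hg, h, hh, hgh⟩ := one_lt_card.mp (lt_of_lt_of_le (by norm_num) hcard)
    simp only [mem_erase] at hg hh
    have hgB := hg.2.2
    have hhB := hh.2.2
    have k1 := key g hgB hg.2.1 hg.1
    have k2 := key h hhB hh.2.1 hh.1
    have hgH : g ∈ H := (mem_filter.mp (mem_filter.mp hgB).1).1
    have hhH : h ∈ H := (mem_filter.mp (mem_filter.mp hhB).1).1
    refine four a haH a' ha'H g hgH h hhH haa'.symm (Ne.symm hg.2.1) (Ne.symm hh.2.1)
      (Ne.symm hg.1) (Ne.symm hh.1) hgh ?_
    have e3 := un a haH a' ha'H haI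
    have hsub : a ∪ a' ∪ g ∪ h ⊆ (a ∪ a') ∪ (g \ (a ∪ a')) ∪ (h \ (a ∪ a')) := by
      intro x hx
      simp only [mem_union, mem_sdiff] at hx ⊢
      tauto
    have e4 := card_le_card hsub
    have e5 := card_union_le ((a ∪ a') ∪ (g \ (a ∪ a'))) (h \ (a ∪ a'))
    have e6 := card_union_le (a ∪ a') (g \ (a ∪ a'))
    omega
  -- double counting
  have hdc : ∑ e ∈ B, e.card = ∑ v : V, (B.filter (fun e => v ∈ e)).card := by
    have h1 : ∀ e ∈ B, e.card = ∑ v : V, if v ∈ e then 1 else 0 := by
      intro e _
      simp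
    rw [sum_congr rfl h1, sum_comm]
    apply sum_congr rfl
    intro v _
    rw [card_filter]
  have hl : ∑ e ∈ B, e.card = 3 * B.card := by
    rw [sum_congr rfl (fun e he => h3 e (mem_filter.mp he).1), sum_const, smul_eq_mul, mul_comm]
  have hr : ∑ v : V, (B.filter (fun e => v ∈ e)).card ≤ 3 * Fintype.card V := by
    calc ∑ v : V, (B.filter (fun e => v ∈ e)).card ≤ ∑ _v : V, 3 := sum_le_sum (fun v _ => hv v)
      _ = 3 * Fintype.card V := by rw [sum_const, card_univ, smul_eq_mul, mul_comm]
  omega

/-- Linear 3-graphs give systems. -/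
theorem link_sys_one {V : Type} [Fintype V] [DecidableEq V] (H : Finset (Finset V))
    (h3 : ∀ e ∈ H, e.card = 3)
    (hlin : ∀ e ∈ H, ∀ g ∈ H, e ≠ g → (e ∩ g).card ≤ 1)
    (h7 : ∀ W : Finset V, W.card ≤ 7 → (H.filter (fun e => e ⊆ W)).card ≤ 3) :
    ∃ S : Sys V, (∀ x y, S.A x y = 1 ↔ (x ≠ y ∧ ∃ e ∈ H, x ∈ e ∧ y ∈ e)) ∧
      6 * (H.card : ℝ) ≤ ∑ x, ∑ y, S.A x y := by
  classical
  -- two edges sharing two points agree
  have heq : ∀ e ∈ H, ∀ g ∈ H, ∀ x y : V, x ≠ y → x ∈ e → y ∈ e → x ∈ g → y ∈ g → e = g := by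
    intro e he g hg x y hxy hxe hye hxg hyg
    by_contra hne
    have h1 := hlin e he g hg hne
    have h2 : ({x, y} : Finset V) ⊆ e ∩ g := by
      intro z hz
      simp only [mem_insert, mem_singleton] at hz
      rcases hz with rfl | rfl <;> simp [*]
    have h4 := card_le_card h2
    rw [card_pair hxy] at h4
    omega
  -- third vertex
  have hthird : ∀ x y : V, (x ≠ y ∧ ∃ e ∈ H, x ∈ e ∧ y ∈ e) →
      ∃ z, z ≠ x ∧ z ≠ y ∧ ({x, y, z} : Finset V) ∈ H := by
    rintro x y ⟨hxy, e, he, hx, hy⟩
    have hc : ((e.erase x).erase y).card = 1 := by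
      rw [card_erase_of_mem (mem_erase.mpr ⟨hxy.symm, hy⟩), card_erase_of_mem hx, h3 e he]
    obtain ⟨z, hz⟩ := card_eq_one.mp hc
    have hz' : z ∈ (e.erase x).erase y := by rw [hz]; exact mem_singleton_self z
    simp only [mem_erase] at hz'
    refine ⟨z, hz'.2.1, hz'.1, ?_⟩
    have : ({x, y, z} : Finset V) = e := by
      apply eq_of_subset_of_card_le
      · intro u hu
        simp only [mem_insert, mem_singleton] at hu
        rcases hu with rfl | rfl | rfl
        · exact hx
        · exact hy
        · exact hz'.2.2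
      · rw [h3 e he, card_insert_of_notMem, card_pair hz'.1.symm]
        simp only [mem_insert, mem_singleton, not_or]
        exact ⟨hxy, hz'.2.1.symm⟩
    rw [this]
    exact he
  let P : V → V → Prop := fun x y => x ≠ y ∧ ∃ e ∈ H, x ∈ e ∧ y ∈ e
  have hPs : ∀ x y, P x y → P y x := by
    rintro x y ⟨hxy, e, he, hx, hy⟩
    exact ⟨hxy.symm, e, he, hy, hx⟩
  let A : V → V → ℝ := fun x y => if P x y then 1 else 0
  have hA : ∀ x y, A x y = 1 ↔ P x y := by
    intro x y
    simp only [A]
    split_ifs with h <;> simp [h]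
  let f : V → V → V := fun x y => if h : P x y then (hthird x y h).choose else x
  have hf : ∀ x y, P x y → f x y ≠ x ∧ f x y ≠ y ∧ ({x, y, f x y} : Finset V) ∈ H := by
    intro x y h
    have : f x y = (hthird x y h).choose := by simp only [f, dif_pos h]
    rw [this]
    exact (hthird x y h).choose_spec
  -- uniqueness
  have hu : ∀ x y z, P x y → z ≠ x → z ≠ y → ({x, y, z} : Finset V) ∈ H → f x y = z := by
    intro x y z h hzx hzy hz
    obtain ⟨k1, k2, k3⟩ := hf x y h
    have he := heq _ k3 _ hz x y h.1 (by simp) (by simp) (by simp) (by simp)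
    have : f x y ∈ ({x, y, z} : Finset V) := by rw [← he]; simp
    simp only [mem_insert, mem_singleton] at this
    rcases this with h' | h' | h'
    · exact absurd h' k1
    · exact absurd h' k2
    · exact h'
  have hxf : ∀ x y, P x y → P x (f x y) := by
    intro x y h
    obtain ⟨k1, k2, k3⟩ := hf x y h
    exact ⟨k1.symm, _, k3, by simp, by simp⟩
  have h01 : ∀ x y, A x y = 0 ∨ A x y = 1 := by
    intro x y
    simp only [A]
    split_ifs <;> simp
  have hsymm : ∀ x y, A x y = A y x := by
    intro x y
    simp only [A]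
    by_cases h : P x y
    · rw [if_pos h, if_pos (hPs _ _ h)]
    · rw [if_neg h, if_neg (fun h' => h (hPs _ _ h'))]
  have hone : ∀ v x x', A v x = 1 → A v x' = 1 → x ≠ x' → x' ≠ f v x →
      A x x' + A x (f v x') + A (f v x) x' + A (f v x) (f v x') ≤ 1 := by
    intro v x x' hvx hvx' hxx' hx'f
    rw [hA] at hvx hvx'
    obtain ⟨a1, a2, a3⟩ := hf v x hvx
    obtain ⟨b1, b2, b3⟩ := hf v x' hvx'
    set y := f v x with hy
    set y' := f v x' with hy'
    have hyy' : y ≠ y' := by
      intro h
      -- both edges contain v, y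
      have he := heq _ a3 _ b3 v y a1.symm (by simp) (by simp) (by simp) (by simp [h])
      have : x' ∈ ({v, x, y} : Finset V) := by rw [he]; simp
      simp only [mem_insert, mem_singleton] at this
      rcases this with h' | h' | h'
      · exact hvx'.1 h'.symm
      · exact hxx' h'.symm
      · exact hx'f h'
    have hxy' : x ≠ y' := by
      intro h
      have he := heq _ a3 _ b3 v x hvx.1 (by simp) (by simp) (by simp) (by simp [h])
      have : x' ∈ ({v, x, y} : Finset V) := by rw [he]; simp
      simp only [mem_insert, mem_singleton] at this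
      rcases this with h' | h' | h'
      · exact hvx'.1 h'.symm
      · exact hxx' h'.symm
      · exact hx'f h'
    -- E1 = {v,x,y}, E2 = {v,x',y'}
    -- general principle: two different cross pairs give a contradiction
    have cross : ∀ p ∈ ({x, y} : Finset V), ∀ p' ∈ ({x', y'} : Finset V),
        ∀ r ∈ ({x, y} : Finset V), ∀ r' ∈ ({x', y'} : Finset V),
        (p ≠ r ∨ p' ≠ r') → P p p' → P r r' → False := by
      intro p hp p' hp' r hr r' hr' hdiff hP hR
      obtain ⟨hpp', e3, he3, hpe3, hp'e3⟩ := hP
      obtain ⟨hrr', e4, he4, hre4, hr'e4⟩ := hR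
      have pE1 : p ∈ ({v, x, y} : Finset V) := by
        simp only [mem_insert, mem_singleton] at hp ⊢; tauto
      have rE1 : r ∈ ({v, x, y} : Finset V) := by
        simp only [mem_insert, mem_singleton] at hr ⊢; tauto
      have p'E2 : p' ∈ ({v, x', y'} : Finset V) := by
        simp only [mem_insert, mem_singleton] at hp' ⊢; tauto
      have r'E2 : r' ∈ ({v, x', y'} : Finset V) := by
        simp only [mem_insert, mem_singleton] at hr' ⊢; tauto
      have nx'E1 : x' ∉ ({v, x, y} : Finset V) := by
        simp only [mem_insert, mem_singleton, not_or]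
        exact ⟨hvx'.1.symm, hxx'.symm, hx'f⟩
      have ny'E1 : y' ∉ ({v, x, y} : Finset V) := by
        simp only [mem_insert, mem_singleton, not_or]
        exact ⟨b1, hxy'.symm, hyy'.symm⟩
      have nxE2 : x ∉ ({v, x', y'} : Finset V) := by
        simp only [mem_insert, mem_singleton, not_or]
        exact ⟨hvx.1.symm, hxx', hxy'⟩
      have nyE2 : y ∉ ({v, x', y'} : Finset V) := by
        simp only [mem_insert, mem_singleton, not_or]
        exact ⟨a1, Ne.symm hx'f, hyy'⟩
      have np'E1 : p' ∉ ({v, x, y} : Finset V) := by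
        simp only [mem_insert, mem_singleton] at hp'
        rcases hp' with rfl | rfl
        · exact nx'E1
        · exact ny'E1
      have nr'E1 : r' ∉ ({v, x, y} : Finset V) := by
        simp only [mem_insert, mem_singleton] at hr'
        rcases hr' with rfl | rfl
        · exact nx'E1
        · exact ny'E1
      have npE2 : p ∉ ({v, x', y'} : Finset V) := by
        simp only [mem_insert, mem_singleton] at hp
        rcases hp with rfl | rfl
        · exact nxE2
        · exact nyE2
      have nrE2 : r ∉ ({v, x', y'} : Finset V) := by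
        simp only [mem_insert, mem_singleton] at hr
        rcases hr with rfl | rfl
        · exact nxE2
        · exact nyE2
      exact lin_cross_false H h3 h7 heq v _ _ e3 e4 a3 b3 he3 he4 (by simp) (by simp) p p' r r'
        pE1 rE1 p'E2 r'E2 np'E1 nr'E1 npE2 nrE2 hpe3 hp'e3 hre4 hr'e4 hdiff
    have mx : x ∈ ({x, y} : Finset V) := by simp
    have my : y ∈ ({x, y} : Finset V) := by simp
    have mx' : x' ∈ ({x', y'} : Finset V) := by simp
    have my' : y' ∈ ({x', y'} : Finset V) := by simp
    have hxy : x ≠ y := a2.symm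
    have hx'y' : x' ≠ y' := b2.symm
    simp only [A]
    by_cases p1 : P x x'
    · have n2 : ¬ P x y' := fun h => cross x mx x' mx' x mx y' my' (Or.inr hx'y') p1 h
      have n3 : ¬ P y x' := fun h => cross x mx x' mx' y my x' mx' (Or.inl hxy) p1 h
      have n4 : ¬ P y y' := fun h => cross x mx x' mx' y my y' my' (Or.inl hxy) p1 h
      rw [if_pos p1, if_neg n2, if_neg n3, if_neg n4]; norm_num
    · by_cases p2 : P x y'
      · have n3 : ¬ P y x' := fun h => cross x mx y' my' y my x' mx' (Or.inl hxy) p2 h
        have n4 : ¬ P y y' := fun h => cross x mx y' my' y my y' my' (Or.inl hxy) p2 h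
        rw [if_neg p1, if_pos p2, if_neg n3, if_neg n4]; norm_num
      · by_cases p3 : P y x'
        · have n4 : ¬ P y y' := fun h => cross y my x' mx' y my y' my' (Or.inr hx'y') p3 h
          rw [if_neg p1, if_neg p2, if_pos p3, if_neg n4]; norm_num
        · rw [if_neg p1, if_neg p2, if_neg p3]
          split_ifs <;> norm_num
  refine ⟨{ A := A, f := f, h01 := h01, symm := hsymm, irr := ?_, fs := ?_, f1 := ?_, f2 := ?_,
            one := hone }, fun x y => hA x y, ?_⟩
  · intro x
    simp only [A]
    rw [if_neg]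
    exact fun h => h.1 rfl
  · intro x y h
    rw [hA] at h
    obtain ⟨k1, k2, k3⟩ := hf y x (hPs _ _ h)
    refine hu x y _ h k2 k1 ?_
    have : ({x, y, f y x} : Finset V) = {y, x, f y x} := by
      ext u; simp only [mem_insert, mem_singleton]; tauto
    rw [this]; exact k3
  · intro x y h
    rw [hA] at h
    exact (hA _ _).mpr (hxf x y h)
  · intro x y h
    rw [hA] at h
    obtain ⟨k1, k2, k3⟩ := hf x y h
    refine hu x (f x y) y (hxf x y h) h.1.symm k2.symm ?_
    have : ({x, f x y, y} : Finset V) = {x, y, f x y} := by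
      ext u; simp only [mem_insert, mem_singleton]; tauto
    rw [this]; exact k3
  · -- the count
    have hsum : ∑ x, ∑ y, A x y =
        (((univ : Finset (V × V)).filter (fun p => P p.1 p.2)).card : ℝ) := by
      rw [← Fintype.sum_prod_type' (f := fun x y => A x y), card_filter]
      push_cast
      rfl
    have hbi : H.biUnion (fun e => e.offDiag) ⊆
        (univ : Finset (V × V)).filter (fun p => P p.1 p.2) := by
      intro p hp
      simp only [mem_biUnion, mem_offDiag] at hp
      obtain ⟨e, he, h1, h2, h4⟩ := hp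
      rw [mem_filter]
      exact ⟨mem_univ _, h4, e, he, h1, h2⟩
    have hdis : Set.PairwiseDisjoint (↑H) (fun e : Finset V => e.offDiag) := by
      intro e he g hg hne
      rw [Function.onFun, Finset.disjoint_left]
      intro p hp hq
      simp only [mem_offDiag] at hp hq
      exact hne (heq e he g hg p.1 p.2 hp.2.2 hp.1 hp.2.1 hq.1 hq.2.1)
    have hcb : (H.biUnion (fun e => e.offDiag)).card = 6 * H.card := by
      rw [card_biUnion hdis, sum_congr rfl (fun e he => by rw [offDiag_card, h3 e he]),
        sum_const, smul_eq_mul]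
      omega
    have hle := card_le_card hbi
    rw [hcb] at hle
    show 6 * (H.card : ℝ) ≤ ∑ x, ∑ y, A x y
    rw [hsum]
    exact_mod_cast hle

theorem two_pairs {V : Type} [DecidableEq V] (e : Finset V) (he : e.card = 3) (part : V → Fin 3)
    (hp : e.image part ≠ univ) :
    2 ≤ (e.offDiag.filter (fun p => part p.1 = part p.2)).card := by
  have h1 : (e.image part).card < e.card := by
    have h2 : (e.image part).card < (univ : Finset (Fin 3)).card :=
      card_lt_card (ssubset_univ_iff.mpr hp)
    rw [card_univ, Fintype.card_fin] at h2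
    omega
  obtain ⟨x, hx, y, hy, hxy, hf⟩ := exists_ne_map_eq_of_card_lt_of_maps_to h1
    (fun a ha => mem_image_of_mem part ha)
  have hsub : ({(x, y), (y, x)} : Finset (V × V)) ⊆
      e.offDiag.filter (fun p => part p.1 = part p.2) := by
    intro p hp
    simp only [mem_insert, mem_singleton] at hp
    rcases hp with rfl | rfl
    · rw [mem_filter, mem_offDiag]; exact ⟨⟨hx, hy, hxy⟩, hf⟩
    · rw [mem_filter, mem_offDiag]; exact ⟨⟨hy, hx, hxy.symm⟩, hf.symm⟩
  have h3 : ({(x, y), (y, x)} : Finset (V × V)).card = 2 := by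
    rw [card_pair]
    intro h
    exact hxy (congrArg Prod.fst h)
  have h4 := card_le_card hsub
  omega

theorem sys_link {V : Type} [Fintype V] [DecidableEq V] (H : Finset (Finset V))
    (h3 : ∀ e ∈ H, e.card = 3)
    (h7 : ∀ W : Finset V, W.card ≤ 7 → (H.filter (fun e => e ⊆ W)).card ≤ 3) :
    ∃ S : Sys V, 6 * (H.card : ℝ) ≤ (∑ x, ∑ y, S.A x y) + 6 * (Fintype.card V : ℝ) ∧
      ∀ part : V → Fin 3,
        2 * ((H.filter (fun e => e.image part ≠ univ)).card : ℝ) ≤
          ∑ x, ∑ y, (if part x = part y then S.A x y else 0) + 2 * (Fintype.card V : ℝ) := by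
  classical
  set B := H.filter (fun e => ∃ g ∈ H, g ≠ e ∧ 2 ≤ (e ∩ g).card) with hB
  have hb : B.card ≤ Fintype.card V := link_bad_card H h3 h7
  set H' := H.filter (fun e => ¬ ∃ g ∈ H, g ≠ e ∧ 2 ≤ (e ∩ g).card) with hH'
  have hsplit : B.card + H'.card = H.card :=
    card_filter_add_card_filter_not (s := H) (fun e => ∃ g ∈ H, g ≠ e ∧ 2 ≤ (e ∩ g).card)
  have hsub : ∀ e ∈ H', e ∈ H := fun e he => (mem_filter.mp he).1
  have hlin : ∀ e ∈ H', ∀ g ∈ H', e ≠ g → (e ∩ g).card ≤ 1 := by
    intro e he g hg hne
    by_contra hcon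
    push Not at hcon
    exact (mem_filter.mp he).2 ⟨g, hsub g hg, hne.symm, hcon⟩
  obtain ⟨S, hA, hS⟩ := link_sys_one H' (fun e he => h3 e (hsub e he)) hlin
    (by
      intro W hW
      refine le_trans (card_le_card ?_) (h7 W hW)
      intro e he
      rw [mem_filter] at he ⊢
      exact ⟨hsub e he.1, he.2⟩)
  have h1 : (H.card : ℝ) = (B.card : ℝ) + (H'.card : ℝ) := by exact_mod_cast hsplit.symm
  have h2 : (B.card : ℝ) ≤ (Fintype.card V : ℝ) := by exact_mod_cast hb
  refine ⟨S, by rw [h1]; linarith, fun part => ?_⟩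
  -- the bad edges of `H'`
  set D := H'.filter (fun e => e.image part ≠ univ) with hD
  have hcov : (H.filter (fun e => e.image part ≠ univ)).card ≤ B.card + D.card := by
    refine le_trans (card_le_card ?_) (card_union_le B D)
    intro e he
    obtain ⟨heH, hep⟩ := mem_filter.mp he
    rw [mem_union]
    by_cases hbad : ∃ g ∈ H, g ≠ e ∧ 2 ≤ (e ∩ g).card
    · left; rw [hB, mem_filter]; exact ⟨heH, hbad⟩
    · right; rw [hD, mem_filter, hH', mem_filter]; exact ⟨⟨heH, hbad⟩, hep⟩
  set Q := D.biUnion (fun e => e.offDiag.filter (fun p => part p.1 = part p.2)) with hQ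
  have hdis : Set.PairwiseDisjoint (↑D)
      (fun e : Finset V => e.offDiag.filter (fun p => part p.1 = part p.2)) := by
    intro e he g hg hne
    rw [Function.onFun, Finset.disjoint_left]
    intro p hp hq
    rw [mem_filter, mem_offDiag] at hp hq
    have he' : e ∈ H' := (mem_filter.mp (mem_coe.mp he)).1
    have hg' : g ∈ H' := (mem_filter.mp (mem_coe.mp hg)).1
    have h4 := hlin e he' g hg' hne
    have h5 : ({p.1, p.2} : Finset V) ⊆ e ∩ g := by
      intro z hz
      simp only [mem_insert, mem_singleton] at hz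
      rw [mem_inter]
      rcases hz with rfl | rfl
      · exact ⟨hp.1.1, hq.1.1⟩
      · exact ⟨hp.1.2.1, hq.1.2.1⟩
    have h6 := card_le_card h5
    rw [card_pair hp.1.2.2] at h6
    omega
  have hQc : 2 * D.card ≤ Q.card := by
    rw [hQ, card_biUnion hdis, mul_comm, ← smul_eq_mul, ← sum_const]
    apply sum_le_sum
    intro e he
    exact two_pairs e (h3 e (hsub e (mem_filter.mp he).1)) part (mem_filter.mp he).2
  have hsum : (Q.card : ℝ) ≤ ∑ x, ∑ y, (if part x = part y then S.A x y else 0) := by
    rw [← Fintype.sum_prod_type' (f := fun x y => if part x = part y then S.A x y else 0)]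
    have h4 : (Q.card : ℝ) = ∑ p ∈ Q, (if part p.1 = part p.2 then S.A p.1 p.2 else 0) := by
      rw [card_eq_sum_ones]
      push_cast
      apply sum_congr rfl
      intro p hp
      rw [hQ, mem_biUnion] at hp
      obtain ⟨e, he, hpe⟩ := hp
      rw [mem_filter, mem_offDiag] at hpe
      rw [if_pos hpe.2]
      exact ((hA p.1 p.2).mpr ⟨hpe.1.2.2, e, (mem_filter.mp he).1, hpe.1.1, hpe.1.2.1⟩).symm
    rw [h4]
    apply sum_le_sum_of_subset_of_nonneg (subset_univ _)
    intro p _ _
    split_ifs
    · rcases S.h01 p.1 p.2 with h | h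
      · rw [h]
      · rw [h]; norm_num
    · exact le_refl _
  have h5 : ((H.filter (fun e => e.image part ≠ univ)).card : ℝ) ≤ (B.card : ℝ) + (D.card : ℝ) := by
    exact_mod_cast hcov
  have h6 : 2 * (D.card : ℝ) ≤ (Q.card : ℝ) := by exact_mod_cast hQc
  linarith

end Pool.Agent.Helper29.ST
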