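import Pool.Agent.Helper29.ST.Base
import Pool.Agent.Helper18.SF.Expl

set_option autoImplicit false

/-! The partition into three parts. `W = w S.A Z`, `φ x y = W x y * |W x y - 1/2|`.
(0) `∑∑ φ = ∑_A |W - 1/2| ≤ t n^2` (sum_ce_mul in the first variable). If `W < 1/4` then `W ≤ 4 φ`;
if `W ≥ 1/4` then `|W - 1/2| ≤ 4 φ`.
(1) rows: `R x = {y | W x y < 1/4}`; `| |V| - |R x| - 2 ∑_y W x y | ≤ 8 ∑_y φ x y`, so
`∑_x | |R x| - n/3 | ≤ 10 t n^2`.
(2) `bad x y z`: not exactly one of `W x z`, `W y z`, `W f z` is below `1/4`; then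
`1/2 ≤ |W x z + W y z + W f z - 1| + 4 (φ x z + φ y z + φ f z)`; so `∑_A ∑_z [bad] ≤ 26 t n^3`.
(3) symmetry: the number of pairs with `W z y < 1/4 ≤ W y z` is `≤ 38 t n^2`.
(4) average over ordered edges (there are at least `n^2/6`). -/

namespace Pool.Agent.Helper29.ST

open Finset Pool.Agent.Helper18.SF Pool.Agent.Helper29.TC

/-- indicator of the small values -/
noncomputable def lw (a : ℝ) : ℝ := if a < 1 / 4 then 1 else 0

/-- distance from `{0, 1/2}` -/
noncomputable def ph (a : ℝ) : ℝ := a * |a - 1 / 2|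

theorem ph_nonneg {a : ℝ} (h : 0 ≤ a) : 0 ≤ ph a := mul_nonneg h (abs_nonneg _)

theorem lw_cases (a : ℝ) : lw a = 0 ∨ lw a = 1 := by
  unfold lw
  split_ifs
  · exact Or.inr rfl
  · exact Or.inl rfl

theorem lw_ph {a : ℝ} (h : 0 ≤ a) : |1 - lw a - 2 * a| ≤ 8 * ph a := by
  unfold lw ph
  split_ifs with h1
  · have h2 : 1 / 4 ≤ |a - 1 / 2| := by
      rw [le_abs]
      right
      linarith
    have h3 : a * (1 / 4) ≤ a * |a - 1 / 2| := mul_le_mul_of_nonneg_left h2 h
    rw [abs_le]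
    constructor <;> linarith
  · have h1 := not_lt.1 h1
    have h3 : |1 - 0 - 2 * a| = 2 * |a - 1 / 2| := by
      rw [show 1 - 0 - 2 * a = -(2 * (a - 1 / 2)) by ring, abs_neg, abs_mul, abs_of_pos two_pos]
    rw [h3]
    have h4 : 1 / 4 * |a - 1 / 2| ≤ a * |a - 1 / 2| := mul_le_mul_of_nonneg_right h1 (abs_nonneg _)
    linarith

theorem three_lw {a b c : ℝ} (ha : 0 ≤ a) (hb : 0 ≤ b) (hc : 0 ≤ c) (h : lw a + lw b + lw c ≠ 1) :
    1 / 2 ≤ |a + b + c - 1| + 4 * (ph a + ph b + ph c) := by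
  have ea := abs_le.1 (lw_ph ha)
  have eb := abs_le.1 (lw_ph hb)
  have ec := abs_le.1 (lw_ph hc)
  have k1 := le_abs_self (a + b + c - 1)
  have k2 := neg_abs_le (a + b + c - 1)
  rcases lw_cases a with e1 | e1 <;> rcases lw_cases b with e2 | e2 <;>
    rcases lw_cases c with e3 | e3 <;> rw [e1, e2, e3] at h <;> rw [e1] at ea <;> rw [e2] at eb <;>
    rw [e3] at ec <;>
    first
    | linarith [ea.1, ea.2, eb.1, eb.2, ec.1, ec.2]
    | exact absurd (by norm_num) h

theorem sym_lw {a b : ℝ} (ha : 0 ≤ a) (h1 : a < 1 / 4) (h2 : ¬ b < 1 / 4) :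
    1 ≤ 16 * |a - b| + 22 * ph a := by
  have h2 := not_lt.1 h2
  have hp := ph_nonneg ha
  by_cases h3 : 1 / 16 ≤ |a - b|
  · linarith
  · have h3 := not_le.1 h3
    have h4 := neg_abs_le (a - b)
    have h5 : 3 / 16 ≤ a := by linarith
    have h6 : 1 / 4 ≤ |a - 1 / 2| := by
      rw [le_abs]
      right
      linarith
    have h7 : 3 / 16 * (1 / 4) ≤ a * |a - 1 / 2| :=
      mul_le_mul h5 h6 (by norm_num) ha
    have h8 := abs_nonneg (a - b)
    unfold ph
    linarith

section sums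

variable {V : Type} [Fintype V] [DecidableEq V] {S : Sys V} {Z : Finset V} {t : ℝ}

theorem sum_ph (h : HF S Z t) :
    ∑ x, ∑ y, ph (w S.A Z x y) ≤ t * (Fintype.card V : ℝ) ^ 2 := by
  refine le_trans (le_of_eq ?_) h.ha
  rw [Finset.sum_comm]
  conv_rhs => rw [Finset.sum_comm]
  refine Finset.sum_congr rfl fun y _ => ?_
  have h1 := sum_ce_mul (pat S.A Z) (S.A y) (fun x => |w S.A Z x y - 1 / 2|) (fun x x' hx => by
    have : w S.A Z x y = w S.A Z x' y := ce_congr hx
    simp only [this])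
  calc ∑ x, ph (w S.A Z x y) = ∑ x, ce (pat S.A Z) (S.A y) x * |w S.A Z x y - 1 / 2| := rfl
    _ = ∑ x, S.A y x * |w S.A Z x y - 1 / 2| := h1
    _ = ∑ x, S.A x y * |w S.A Z x y - 1 / 2| :=
      Finset.sum_congr rfl fun x _ => by rw [S.symm y x]

/-- indicator of the bad triples -/
noncomputable def bd (S : Sys V) (Z : Finset V) (x x' z : V) : ℝ :=
  if lw (w S.A Z x z) + lw (w S.A Z x' z) + lw (w S.A Z (S.f x x') z) = 1 then 0 else 1

theorem bd_nonneg (S : Sys V) (Z : Finset V) (x x' z : V) : 0 ≤ bd S Z x x' z := by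
  unfold bd
  split_ifs <;> norm_num

/-- sums over the edges of functions of one vertex -/
theorem sum_edge_le (S : Sys V) (F : V → ℝ) (hF : ∀ x, 0 ≤ F x) :
    ∑ x, ∑ y, S.A x y * (F x + F y + F (S.f x y)) ≤ 3 * ((Fintype.card V : ℝ) * ∑ x, F x) := by
  have b1 : ∑ x, ∑ y, S.A x y * F x = ∑ x, (∑ y, S.A x y) * F x :=
    Finset.sum_congr rfl fun x _ => by rw [Finset.sum_mul]
  have b2 : ∑ x, ∑ y, S.A x y * F y = ∑ x, (∑ y, S.A x y) * F x := by
    rw [← b1, S.sum_right fun _ y => F y]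
  have b3 : ∑ x, ∑ y, S.A x y * F (S.f x y) = ∑ x, (∑ y, S.A x y) * F x := by
    rw [← b2, S.sum_third fun _ y => F y]
  have e : ∑ x, ∑ y, S.A x y * (F x + F y + F (S.f x y)) =
      ∑ x, ∑ y, S.A x y * F x + ∑ x, ∑ y, S.A x y * F y + ∑ x, ∑ y, S.A x y * F (S.f x y) := by
    simp only [mul_add, Finset.sum_add_distrib]
  have hD : ∀ x, ∑ y, S.A x y ≤ (Fintype.card V : ℝ) := by
    intro x
    calc ∑ y, S.A x y ≤ ∑ _y : V, (1 : ℝ) := Finset.sum_le_sum fun y _ => S.A_le_one x y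
      _ = _ := by rw [Finset.sum_const, Finset.card_univ, nsmul_eq_mul, mul_one]
  have k : ∑ x, (∑ y, S.A x y) * F x ≤ (Fintype.card V : ℝ) * ∑ x, F x := by
    rw [Finset.mul_sum]
    exact Finset.sum_le_sum fun x _ => mul_le_mul_of_nonneg_right (hD x) (hF x)
  rw [e, b1, b2, b3]
  linarith

theorem sum_bd (h : HF S Z t) :
    ∑ x, ∑ x', S.A x x' * ∑ z, bd S Z x x' z ≤ 26 * t * (Fintype.card V : ℝ) ^ 3 := by
  set n : ℝ := (Fintype.card V : ℝ) with hn
  have hn0 : 0 ≤ n := Nat.cast_nonneg _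
  set Φ : V → ℝ := fun x => ∑ z, ph (w S.A Z x z) with hΦ
  have hΦ0 : ∀ x, 0 ≤ Φ x := fun x => Finset.sum_nonneg fun z _ => ph_nonneg (h.hh.W0 x z)
  have key : ∀ x x', S.A x x' * ∑ z, bd S Z x x' z ≤
      2 * (S.A x x' * ∑ y, |w S.A Z x y + w S.A Z x' y + w S.A Z (S.f x x') y - 1|) +
        8 * (S.A x x' * (Φ x + Φ x' + Φ (S.f x x'))) := by
    intro x x'
    have h1 : ∑ z, bd S Z x x' z ≤
        ∑ z, (2 * |w S.A Z x z + w S.A Z x' z + w S.A Z (S.f x x') z - 1| +
          8 * (ph (w S.A Z x z) + ph (w S.A Z x' z) + ph (w S.A Z (S.f x x') z))) := by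
      refine Finset.sum_le_sum fun z _ => ?_
      have p1 := ph_nonneg (h.hh.W0 x z)
      have p2 := ph_nonneg (h.hh.W0 x' z)
      have p3 := ph_nonneg (h.hh.W0 (S.f x x') z)
      have p4 := abs_nonneg (w S.A Z x z + w S.A Z x' z + w S.A Z (S.f x x') z - 1)
      unfold bd
      split_ifs with hb
      · linarith
      · have := three_lw (h.hh.W0 x z) (h.hh.W0 x' z) (h.hh.W0 (S.f x x') z) hb
        linarith
    have h2 := mul_le_mul_of_nonneg_left h1 (S.A_nonneg x x')
    refine h2.trans (le_of_eq ?_)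
    rw [Finset.sum_add_distrib, ← Finset.mul_sum, ← Finset.mul_sum, Finset.sum_add_distrib,
      Finset.sum_add_distrib]
    ring
  calc ∑ x, ∑ x', S.A x x' * ∑ z, bd S Z x x' z
      ≤ ∑ x, ∑ x', (2 * (S.A x x' * ∑ y, |w S.A Z x y + w S.A Z x' y + w S.A Z (S.f x x') y - 1|) +
        8 * (S.A x x' * (Φ x + Φ x' + Φ (S.f x x')))) :=
        Finset.sum_le_sum fun x _ => Finset.sum_le_sum fun x' _ => key x x'
    _ = 2 * (∑ x, ∑ x', S.A x x' * ∑ y, |w S.A Z x y + w S.A Z x' y + w S.A Z (S.f x x') y - 1|) +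
        8 * ∑ x, ∑ x', S.A x x' * (Φ x + Φ x' + Φ (S.f x x')) := by
        simp only [Finset.sum_add_distrib, Finset.mul_sum]
    _ ≤ 2 * (t * n ^ 3) + 8 * (3 * (n * (t * n ^ 2))) := by
        have k1 := h.hh.h1
        have k2 := sum_edge_le S Φ hΦ0
        have k3 := mul_le_mul_of_nonneg_left (sum_ph h) hn0
        linarith
    _ = 26 * t * n ^ 3 := by ring

/-- the cost of the row of `z` -/
noncomputable def c1 (S : Sys V) (Z : Finset V) (z : V) : ℝ :=
  |∑ y, lw (w S.A Z z y) - (Fintype.card V : ℝ) / 3|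

/-- edges inside the column of `z` -/
noncomputable def c2 (S : Sys V) (Z : Finset V) (z : V) : ℝ :=
  ∑ x, ∑ y, if w S.A Z x z < 1 / 4 ∧ w S.A Z y z < 1 / 4 then S.A x y else 0

/-- asymmetry -/
noncomputable def g3 (S : Sys V) (Z : Finset V) (z y : V) : ℝ :=
  if w S.A Z z y < 1 / 4 ∧ ¬ w S.A Z y z < 1 / 4 then 1 else 0

theorem g3_nonneg (S : Sys V) (Z : Finset V) (z y : V) : 0 ≤ g3 S Z z y := by
  unfold g3
  split_ifs <;> norm_num

theorem c2_nonneg (S : Sys V) (Z : Finset V) (z : V) : 0 ≤ c2 S Z z := by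
  refine Finset.sum_nonneg fun x _ => Finset.sum_nonneg fun y _ => ?_
  split_ifs
  · exact S.A_nonneg x y
  · exact le_rfl

theorem sum_c1 (h : HF S Z t) : ∑ z, c1 S Z z ≤ 10 * t * (Fintype.card V : ℝ) ^ 2 := by
  have key : ∀ z, c1 S Z z ≤ 8 * ∑ y, ph (w S.A Z z y) +
      2 * |∑ y, w S.A Z z y - (Fintype.card V : ℝ) / 3| := by
    intro z
    have h1 : |∑ y, (1 - lw (w S.A Z z y) - 2 * w S.A Z z y)| ≤ ∑ y, 8 * ph (w S.A Z z y) :=
      (Finset.abs_sum_le_sum_abs _ _).trans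
        (Finset.sum_le_sum fun y _ => lw_ph (h.hh.W0 z y))
    rw [Finset.sum_sub_distrib, Finset.sum_sub_distrib, ← Finset.mul_sum, ← Finset.mul_sum,
      Finset.sum_const, Finset.card_univ, nsmul_eq_mul, mul_one] at h1
    have h2 := abs_le.1 h1
    have h3 := abs_le.1 (le_refl |∑ y, w S.A Z z y - (Fintype.card V : ℝ) / 3|)
    unfold c1
    rw [abs_le]
    constructor <;> linarith [h2.1, h2.2, h3.1, h3.2]
  calc ∑ z, c1 S Z z ≤ ∑ z, (8 * ∑ y, ph (w S.A Z z y) +
      2 * |∑ y, w S.A Z z y - (Fintype.card V : ℝ) / 3|) := Finset.sum_le_sum fun z _ => key z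
    _ = 8 * ∑ z, ∑ y, ph (w S.A Z z y) + 2 * ∑ z, |∑ y, w S.A Z z y - (Fintype.card V : ℝ) / 3| := by
        rw [Finset.sum_add_distrib, ← Finset.mul_sum, ← Finset.mul_sum]
    _ ≤ _ := by
        have k1 := sum_ph h
        have k2 := h.hh.h2'
        linarith

theorem sum_c2 (h : HF S Z t) : ∑ z, c2 S Z z ≤ 26 * t * (Fintype.card V : ℝ) ^ 3 := by
  refine le_trans ?_ (sum_bd h)
  have e : ∑ x, ∑ x', S.A x x' * ∑ z, bd S Z x x' z = ∑ z, ∑ x, ∑ x', S.A x x' * bd S Z x x' z := by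
    simp only [Finset.mul_sum]
    rw [Finset.sum_comm]
    have : ∀ x', ∑ x, ∑ z, S.A x x' * bd S Z x x' z = ∑ z, ∑ x, S.A x x' * bd S Z x x' z :=
      fun x' => Finset.sum_comm
    simp only [this]
    rw [Finset.sum_comm]
    refine Finset.sum_congr rfl fun z _ => ?_
    rw [Finset.sum_comm]
  rw [e]
  refine Finset.sum_le_sum fun z _ => Finset.sum_le_sum fun x _ => Finset.sum_le_sum fun y _ => ?_
  split_ifs with hxy
  · have h1 : lw (w S.A Z x z) = 1 := if_pos hxy.1
    have h2 : lw (w S.A Z y z) = 1 := if_pos hxy.2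
    unfold bd
    rw [h1, h2, if_neg, mul_one]
    rcases lw_cases (w S.A Z (S.f x y) z) with h3 | h3 <;> rw [h3] <;> norm_num
  · exact mul_nonneg (S.A_nonneg x y) (bd_nonneg S Z x y z)

theorem sum_g3 (h : HF S Z t) : ∑ z, ∑ y, g3 S Z z y ≤ 38 * t * (Fintype.card V : ℝ) ^ 2 := by
  calc ∑ z, ∑ y, g3 S Z z y ≤
      ∑ z, ∑ y, (16 * |w S.A Z z y - w S.A Z y z| + 22 * ph (w S.A Z z y)) := by
        refine Finset.sum_le_sum fun z _ => Finset.sum_le_sum fun y _ => ?_
        have p1 := ph_nonneg (h.hh.W0 z y)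
        have p2 := abs_nonneg (w S.A Z z y - w S.A Z y z)
        unfold g3
        split_ifs with hzy
        · exact sym_lw (h.hh.W0 z y) hzy.1 hzy.2
        · linarith
    _ = 16 * ∑ z, ∑ y, |w S.A Z z y - w S.A Z y z| + 22 * ∑ z, ∑ y, ph (w S.A Z z y) := by
        simp only [Finset.sum_add_distrib, Finset.mul_sum]
    _ ≤ _ := by
        have k1 := sum_ph h
        have k2 := h.sy
        linarith

/-- the total cost of a vertex -/
noncomputable def cst (S : Sys V) (Z : Finset V) (z : V) : ℝ :=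
  (Fintype.card V : ℝ) * c1 S Z z + c2 S Z z + (Fintype.card V : ℝ) * ∑ y, g3 S Z z y

theorem exists_block (h : HF S Z t) (ht : 0 ≤ t) (ht1 : t ≤ 1 / 6) (hV : 0 < Fintype.card V) :
    ∃ z1 z2, cst S Z z1 + cst S Z z2 + cst S Z (S.f z1 z2) +
      (Fintype.card V : ℝ) * ∑ y, bd S Z z1 z2 y ≤ 1488 * t * (Fintype.card V : ℝ) ^ 2 := by
  set n : ℝ := (Fintype.card V : ℝ) with hn
  have hn0 : 0 < n := by
    rw [hn]
    exact_mod_cast hV
  have hc0 : ∀ z, 0 ≤ cst S Z z := fun z => by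
    have h1 : 0 ≤ c1 S Z z := abs_nonneg _
    have h2 := c2_nonneg S Z z
    have h3 : 0 ≤ ∑ y, g3 S Z z y := Finset.sum_nonneg fun y _ => g3_nonneg S Z z y
    unfold cst
    rw [← hn]
    positivity
  have hcs : ∑ z, cst S Z z ≤ 74 * t * n ^ 3 := by
    have k1 := mul_le_mul_of_nonneg_left (sum_c1 h) hn0.le
    have k2 := sum_c2 h
    have k3 := mul_le_mul_of_nonneg_left (sum_g3 h) hn0.le
    have e : ∑ z, cst S Z z = n * ∑ z, c1 S Z z + ∑ z, c2 S Z z + n * ∑ z, ∑ y, g3 S Z z y := by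
      unfold cst
      rw [Finset.sum_add_distrib, Finset.sum_add_distrib, ← Finset.mul_sum, ← Finset.mul_sum]
    rw [e]
    calc _ ≤ n * (10 * t * n ^ 2) + 26 * t * n ^ 3 + n * (38 * t * n ^ 2) := by linarith
      _ = 74 * t * n ^ 3 := by ring
  have hT : ∑ x, ∑ y, S.A x y * (cst S Z x + cst S Z y + cst S Z (S.f x y) + n * ∑ z, bd S Z x y z) ≤
      248 * t * n ^ 4 := by
    have k1 := sum_edge_le S (cst S Z) hc0
    have k2 := mul_le_mul_of_nonneg_left (sum_bd h) hn0.le
    have k3 := mul_le_mul_of_nonneg_left hcs hn0.le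
    have e : ∑ x, ∑ y, S.A x y * (cst S Z x + cst S Z y + cst S Z (S.f x y) + n * ∑ z, bd S Z x y z) =
        ∑ x, ∑ y, S.A x y * (cst S Z x + cst S Z y + cst S Z (S.f x y)) +
          n * ∑ x, ∑ y, S.A x y * ∑ z, bd S Z x y z := by
      rw [Finset.mul_sum, ← Finset.sum_add_distrib]
      refine Finset.sum_congr rfl fun x _ => ?_
      rw [Finset.mul_sum, ← Finset.sum_add_distrib]
      exact Finset.sum_congr rfl fun y _ => by ring
    rw [e]
    calc _ ≤ 3 * (n * (74 * t * n ^ 3)) + n * (26 * t * n ^ 3) := by linarith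
      _ = 248 * t * n ^ 4 := by ring
  have hM : n ^ 2 / 6 ≤ ∑ x, ∑ y, S.A x y * 1 := by
    have h1 : ∑ x, (n / 3 - |∑ y, S.A x y - n / 3|) ≤ ∑ x, ∑ y, S.A x y := by
      refine Finset.sum_le_sum fun x _ => ?_
      have := neg_abs_le (∑ y, S.A x y - n / 3)
      linarith
    rw [Finset.sum_sub_distrib, Finset.sum_const, Finset.card_univ, nsmul_eq_mul] at h1
    have h2 := h.hh.h2
    rw [← hn] at h1 h2
    simp only [mul_one]
    have h3 : t * n ^ 2 ≤ 1 / 6 * n ^ 2 := mul_le_mul_of_nonneg_right ht1 (by positivity)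
    have h4 : n * (n / 3) = n ^ 2 / 3 := by ring
    linarith
  set c : ℝ := 1488 * t * n ^ 2 with hc
  have hc' : 0 ≤ c := by positivity
  rw [S.sum_E (fun x y => cst S Z x + cst S Z y + cst S Z (S.f x y) + n * ∑ z, bd S Z x y z)] at hT
  rw [S.sum_E (fun _ _ => (1 : ℝ))] at hM
  have hne : (univ.filter fun e : V × V => S.A e.1 e.2 = 1).Nonempty := by
    rw [Finset.nonempty_iff_ne_empty]
    intro he
    rw [he, Finset.sum_empty] at hM
    have : 0 < n ^ 2 / 6 := by positivity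
    linarith
  obtain ⟨e, _, he⟩ := Finset.exists_le_of_sum_le hne (f := fun e : V × V =>
      cst S Z e.1 + cst S Z e.2 + cst S Z (S.f e.1 e.2) + n * ∑ z, bd S Z e.1 e.2 z)
    (g := fun _ => c) (by
      refine hT.trans ?_
      have h1 : ∑ _e ∈ univ.filter (fun e : V × V => S.A e.1 e.2 = 1), c =
          (∑ _e ∈ univ.filter (fun e : V × V => S.A e.1 e.2 = 1), (1 : ℝ)) * c := by
        rw [Finset.sum_mul]
        simp only [one_mul]
      rw [h1]
      calc 248 * t * n ^ 4 = n ^ 2 / 6 * c := by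
            rw [hc]
            ring
        _ ≤ _ := mul_le_mul_of_nonneg_right hM hc')
  exact ⟨e.1, e.2, he⟩

end sums

/-- three vertices as a function -/
def zz {V : Type} (z1 z2 z3 : V) (i : Fin 3) : V := if i = 0 then z1 else if i = 1 then z2 else z3

/-- the part of a vertex, given the values of its row at the three vertices -/
noncomputable def pt (a b : ℝ) : Fin 3 := if a < 1 / 4 then 0 else if b < 1 / 4 then 1 else 2

theorem pt_lw {a b c : ℝ} (h : lw a + lw b + lw c = 1) :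
    (if pt a b = 0 then (1 : ℝ) else 0) = lw a ∧ (if pt a b = 1 then (1 : ℝ) else 0) = lw b ∧
      (if pt a b = 2 then (1 : ℝ) else 0) = lw c := by
  unfold lw pt at *
  by_cases ha : a < 1 / 4 <;> by_cases hb : b < 1 / 4 <;> by_cases hc : c < 1 / 4 <;>
    simp only [ha, hb, hc, if_true, if_false] at h ⊢ <;>
    first
    | (simp; done)
    | exact absurd h (by norm_num)

theorem part_of (V : Type) [Fintype V] [DecidableEq V] (S : Sys V) (Z : Finset V) (t : ℝ)
    (ht : 0 ≤ t) (ht1 : t ≤ 1 / 6) (hV : 0 < Fintype.card V) (h : HF S Z t) :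
    ∃ part : V → Fin 3,
      (∀ i, |((univ.filter (fun x => part x = i)).card : ℝ) - (Fintype.card V : ℝ) / 3| ≤
        100000 * t * (Fintype.card V : ℝ)) ∧
      ∑ x, ∑ y, (if part x = part y then S.A x y else 0) ≤
        100000 * t * (Fintype.card V : ℝ) ^ 2 := by
  obtain ⟨z1, z2, hz⟩ := exists_block h ht ht1 hV
  set n : ℝ := (Fintype.card V : ℝ) with hn
  have hn0 : 0 < n := by
    rw [hn]
    exact_mod_cast hV
  set ζ : Fin 3 → V := zz z1 z2 (S.f z1 z2) with hζ
  set part : V → Fin 3 := fun y => pt (w S.A Z z1 y) (w S.A Z z2 y) with hpart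
  have hbd0 : 0 ≤ ∑ y, bd S Z z1 z2 y := Finset.sum_nonneg fun y _ => bd_nonneg S Z z1 z2 y
  have hg0 : ∀ z, 0 ≤ ∑ y, g3 S Z z y := fun z => Finset.sum_nonneg fun y _ => g3_nonneg S Z z y
  have hc10 : ∀ z, 0 ≤ c1 S Z z := fun z => abs_nonneg _
  -- the single costs
  have hcst : ∀ i, cst S Z (ζ i) + n * ∑ y, bd S Z z1 z2 y ≤ 1488 * t * n ^ 2 := by
    have hc0 : ∀ z, 0 ≤ cst S Z z := fun z => by
      have h1 := hc10 z
      have h2 := c2_nonneg S Z z
      have h3 := hg0 z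
      unfold cst
      rw [← hn]
      positivity
    have p1 := hc0 z1
    have p2 := hc0 z2
    have p3 := hc0 (S.f z1 z2)
    intro i
    fin_cases i
    · show cst S Z z1 + _ ≤ _
      linarith
    · show cst S Z z2 + _ ≤ _
      linarith
    · show cst S Z (S.f z1 z2) + _ ≤ _
      linarith
  have q1 : ∀ i, c1 S Z (ζ i) + ∑ y, bd S Z z1 z2 y ≤ 1488 * t * n := by
    intro i
    have h1 := hcst i
    have h2 := c2_nonneg S Z (ζ i)
    have h3 := mul_nonneg hn0.le (hg0 (ζ i))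
    unfold cst at h1
    rw [← hn] at h1
    have h4 : n * (c1 S Z (ζ i) + ∑ y, bd S Z z1 z2 y) ≤ n * (1488 * t * n) := by
      calc _ = n * c1 S Z (ζ i) + n * ∑ y, bd S Z z1 z2 y := by ring
        _ ≤ 1488 * t * n ^ 2 := by linarith
        _ = _ := by ring
    exact le_of_mul_le_mul_left h4 hn0
  have q2 : ∀ i, c2 S Z (ζ i) + n * (∑ y, g3 S Z (ζ i) y + ∑ y, bd S Z z1 z2 y) ≤
      1488 * t * n ^ 2 := by
    intro i
    have h1 := hcst i
    have h2 := mul_nonneg hn0.le (hc10 (ζ i))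
    unfold cst at h1
    rw [← hn] at h1
    linarith
  -- good vertices
  have good : ∀ y, bd S Z z1 z2 y = 0 → ∀ i,
      (if part y = i then (1 : ℝ) else 0) = lw (w S.A Z (ζ i) y) := by
    intro y hy i
    have h1 : lw (w S.A Z z1 y) + lw (w S.A Z z2 y) + lw (w S.A Z (S.f z1 z2) y) = 1 := by
      by_contra hc
      unfold bd at hy
      rw [if_neg hc] at hy
      exact one_ne_zero hy
    obtain ⟨e0, e1, e2⟩ := pt_lw h1
    fin_cases i
    · exact e0
    · exact e1
    · exact e2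
  have bdc : ∀ y, bd S Z z1 z2 y = 0 ∨ bd S Z z1 z2 y = 1 := by
    intro y
    unfold bd
    split_ifs
    · exact Or.inl rfl
    · exact Or.inr rfl
  refine ⟨part, fun i => ?_, ?_⟩
  · have e1 : ((univ.filter (fun x => part x = i)).card : ℝ) = ∑ y, if part y = i then (1 : ℝ) else 0 := by
      rw [Finset.card_filter]
      push_cast
      rfl
    have h1 : |∑ y, (if part y = i then (1 : ℝ) else 0) - ∑ y, lw (w S.A Z (ζ i) y)| ≤
        ∑ y, bd S Z z1 z2 y := by
      rw [← Finset.sum_sub_distrib]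
      refine (Finset.abs_sum_le_sum_abs _ _).trans (Finset.sum_le_sum fun y _ => ?_)
      rcases bdc y with hb | hb
      · rw [good y hb i, sub_self, abs_zero, hb]
      · rw [hb]
        rcases lw_cases (w S.A Z (ζ i) y) with hl | hl <;> rw [hl] <;> split_ifs <;> norm_num
    have h2 := q1 i
    have h3 := abs_le.1 h1
    have h4 : |∑ y, lw (w S.A Z (ζ i) y) - n / 3| = c1 S Z (ζ i) := rfl
    have h5 := abs_le.1 (le_of_eq h4)
    have h6 : 0 ≤ t * n := by positivity
    rw [e1, abs_le]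
    constructor <;> linarith [h3.1, h3.2, h5.1, h5.2]
  · have key : ∀ x y, (if part x = part y then S.A x y else 0) ≤
        ∑ i, ((if w S.A Z x (ζ i) < 1 / 4 ∧ w S.A Z y (ζ i) < 1 / 4 then S.A x y else 0) +
          ((g3 S Z (ζ i) x + bd S Z z1 z2 x) + (g3 S Z (ζ i) y + bd S Z z1 z2 y))) := by
      intro x y
      have hnn : ∀ i, 0 ≤ (if w S.A Z x (ζ i) < 1 / 4 ∧ w S.A Z y (ζ i) < 1 / 4 then S.A x y else 0) +
          ((g3 S Z (ζ i) x + bd S Z z1 z2 x) + (g3 S Z (ζ i) y + bd S Z z1 z2 y)) := by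
        intro i
        have a1 := g3_nonneg S Z (ζ i) x
        have a2 := g3_nonneg S Z (ζ i) y
        have a3 := bd_nonneg S Z z1 z2 x
        have a4 := bd_nonneg S Z z1 z2 y
        have a5 := S.A_nonneg x y
        split_ifs <;> linarith
      by_cases hxy : part x = part y
      · rw [if_pos hxy]
        refine le_trans ?_ (Finset.single_le_sum (fun i _ => hnn i) (Finset.mem_univ (part x)))
        have a1 := g3_nonneg S Z (ζ (part x)) x
        have a2 := g3_nonneg S Z (ζ (part x)) y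
        have a3 := bd_nonneg S Z z1 z2 x
        have a4 := bd_nonneg S Z z1 z2 y
        have a5 := S.A_nonneg x y
        have a6 := S.A_le_one x y
        rcases bdc x with hbx | hbx
        swap
        · split_ifs <;> linarith
        rcases bdc y with hby | hby
        swap
        · split_ifs <;> linarith
        have gx := good x hbx (part x)
        have gy := good y hby (part x)
        rw [if_pos rfl] at gx
        rw [if_pos hxy.symm] at gy
        have wx : w S.A Z (ζ (part x)) x < 1 / 4 := by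
          by_contra hc
          unfold lw at gx
          rw [if_neg hc] at gx
          exact one_ne_zero gx
        have wy : w S.A Z (ζ (part x)) y < 1 / 4 := by
          by_contra hc
          unfold lw at gy
          rw [if_neg hc] at gy
          exact one_ne_zero gy
        by_cases ux : w S.A Z x (ζ (part x)) < 1 / 4
        · by_cases uy : w S.A Z y (ζ (part x)) < 1 / 4
          · rw [if_pos ⟨ux, uy⟩]
            linarith
          · have : g3 S Z (ζ (part x)) y = 1 := if_pos ⟨wy, uy⟩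
            rw [this]
            split_ifs <;> linarith
        · have : g3 S Z (ζ (part x)) x = 1 := if_pos ⟨wx, ux⟩
          rw [this]
          split_ifs <;> linarith
      · rw [if_neg hxy]
        exact Finset.sum_nonneg fun i _ => hnn i
    have e1 : ∀ F : V → ℝ, ∑ x, ∑ _y : V, F x = n * ∑ x, F x := by
      intro F
      rw [Finset.mul_sum]
      refine Finset.sum_congr rfl fun x _ => ?_
      rw [Finset.sum_const, Finset.card_univ, nsmul_eq_mul]
    have e2 : ∀ F : V → ℝ, ∑ _x : V, ∑ y, F y = n * ∑ x, F x := by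
      intro F
      rw [Finset.sum_const, Finset.card_univ, nsmul_eq_mul]
    calc ∑ x, ∑ y, (if part x = part y then S.A x y else 0)
        ≤ ∑ x, ∑ y, ∑ i, ((if w S.A Z x (ζ i) < 1 / 4 ∧ w S.A Z y (ζ i) < 1 / 4 then S.A x y else 0) +
          ((g3 S Z (ζ i) x + bd S Z z1 z2 x) + (g3 S Z (ζ i) y + bd S Z z1 z2 y))) :=
          Finset.sum_le_sum fun x _ => Finset.sum_le_sum fun y _ => key x y
      _ = ∑ i, ∑ x, ∑ y, ((if w S.A Z x (ζ i) < 1 / 4 ∧ w S.A Z y (ζ i) < 1 / 4 then S.A x y else 0) +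
          ((g3 S Z (ζ i) x + bd S Z z1 z2 x) + (g3 S Z (ζ i) y + bd S Z z1 z2 y))) := by
          have e3 : ∀ x : V, ∑ y, ∑ i, ((if w S.A Z x (ζ i) < 1 / 4 ∧ w S.A Z y (ζ i) < 1 / 4 then
              S.A x y else 0) + ((g3 S Z (ζ i) x + bd S Z z1 z2 x) + (g3 S Z (ζ i) y + bd S Z z1 z2 y))) =
              ∑ i, ∑ y, ((if w S.A Z x (ζ i) < 1 / 4 ∧ w S.A Z y (ζ i) < 1 / 4 then
              S.A x y else 0) + ((g3 S Z (ζ i) x + bd S Z z1 z2 x) + (g3 S Z (ζ i) y + bd S Z z1 z2 y))) :=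
            fun x => Finset.sum_comm
          simp only [e3]
          rw [Finset.sum_comm]
      _ = ∑ i, (c2 S Z (ζ i) + 2 * (n * (∑ y, g3 S Z (ζ i) y + ∑ y, bd S Z z1 z2 y))) := by
          refine Finset.sum_congr rfl fun i _ => ?_
          have e4 := e1 fun x => g3 S Z (ζ i) x + bd S Z z1 z2 x
          have e5 := e2 fun x => g3 S Z (ζ i) x + bd S Z z1 z2 x
          rw [Finset.sum_add_distrib] at e4 e5
          unfold c2
          simp only [Finset.sum_add_distrib] at e4 e5 ⊢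
          linarith
      _ ≤ ∑ _i : Fin 3, 2 * (1488 * t * n ^ 2) := by
          refine Finset.sum_le_sum fun i _ => ?_
          have := q2 i
          have := c2_nonneg S Z (ζ i)
          linarith
      _ ≤ 100000 * t * n ^ 2 := by
          rw [Finset.sum_const, Finset.card_univ, Fintype.card_fin, nsmul_eq_mul]
          have : 0 ≤ t * n ^ 2 := by positivity
          push_cast
          linarith

end Pool.Agent.Helper29.ST
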