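import Pool.Agent.Helper29.ST.Sym
import Pool.Agent.Helper29.ST.Half
import Pool.Agent.Helper29.ST.Part
import Pool.Agent.Helper29.ST.Link
import Pool.Agent.Helper29.TC.Hyp

set_option autoImplicit false

/-! Stability of the bound 1/18. -/

namespace Pool.Agent.Helper29.ST

open Finset Pool.Agent.Helper18.SF Pool.Agent.Helper29.TC

theorem stab_sys (ε : ℝ) (hε : 0 < ε) : ∃ δ : ℝ, 0 < δ ∧ ∃ N : ℕ,
    ∀ (V : Type) [Fintype V] [DecidableEq V], N ≤ Fintype.card V → ∀ S : Sys V,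
      (1 / 3 - δ) * (Fintype.card V : ℝ) ^ 2 ≤ ∑ x, ∑ y, S.A x y →
      ∃ part : V → Fin 3,
        (∀ i, |((univ.filter (fun x => part x = i)).card : ℝ) - (Fintype.card V : ℝ) / 3| ≤
          ε * (Fintype.card V : ℝ)) ∧
        ∑ x, ∑ y, (if part x = part y then S.A x y else 0) ≤ ε * (Fintype.card V : ℝ) ^ 2 := by
  set t : ℝ := min (1 / 6) (ε / 100000) with ht
  have ht0 : 0 < t := by positivity
  set η : ℝ := (t / 10000) ^ 2 with hη
  have hη0 : 0 < η := by positivity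
  have ht6 : t ≤ 1 / 6 := min_le_left _ _
  have htε : t ≤ ε / 100000 := min_le_right _ _
  obtain ⟨δ, hδ, N, hN⟩ := chain2 η hη0
  refine ⟨δ, hδ, max N 1, fun V _ _ hV S hS => ?_⟩
  have hN1 : N ≤ Fintype.card V := (le_max_left _ _).trans hV
  have hpos : 0 < Fintype.card V := lt_of_lt_of_le Nat.one_pos ((le_max_right _ _).trans hV)
  obtain ⟨Z, hZ, hs⟩ := hN V hN1 S hS
  have hη1 : η ≤ 1 := by
    rw [hη]
    have : t / 10000 ≤ 1 := by linarith
    exact pow_le_one₀ (by positivity) this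
  have hsq : Real.sqrt η = t / 10000 := by rw [hη]; exact Real.sqrt_sq (by positivity)
  have h1 := hyp V S Z η hη0 hη1 hZ
  rw [hsq] at h1
  have hηle : η ≤ 100 * (t / 10000) := by
    rw [hη]
    have : (t / 10000) ^ 2 = (t / 10000) * (t / 10000) := by ring
    rw [this]
    nlinarith
  have h2 := half V S Z (100 * (t / 10000)) (by positivity) h1
    (hs.trans (mul_le_mul_of_nonneg_right hηle (by positivity)))
  have e : 100 * (100 * (t / 10000)) = t := by ring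
  rw [e] at h2
  obtain ⟨part, hp1, hp2⟩ := part_of V S Z t ht0.le ht6 hpos h2
  have e2 : 100000 * t ≤ ε := by linarith
  refine ⟨part, fun i => (hp1 i).trans (mul_le_mul_of_nonneg_right e2 (by positivity)),
    hp2.trans (mul_le_mul_of_nonneg_right e2 (by positivity))⟩

theorem stab_graph (ε : ℝ) (hε : 0 < ε) : ∃ δ : ℝ, 0 < δ ∧ ∃ N : ℕ,
    ∀ (V : Type) [Fintype V] [DecidableEq V], N ≤ Fintype.card V → ∀ H : Finset (Finset V),
      (∀ e ∈ H, e.card = 3) →
      (∀ W : Finset V, W.card ≤ 7 → (H.filter (fun e => e ⊆ W)).card ≤ 3) →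
      (1 / 18 - δ) * (Fintype.card V : ℝ) ^ 2 ≤ (H.card : ℝ) →
      ∃ part : V → Fin 3,
        (∀ i, |((univ.filter (fun x => part x = i)).card : ℝ) - (Fintype.card V : ℝ) / 3| ≤
          ε * (Fintype.card V : ℝ)) ∧
        ((H.filter (fun e => e.image part ≠ univ)).card : ℝ) ≤ ε * (Fintype.card V : ℝ) ^ 2 := by
  obtain ⟨δ, hδ, N, hN⟩ := stab_sys ε hε
  refine ⟨δ / 12, by positivity, max N (⌈12 / δ⌉₊ + ⌈2 / ε⌉₊ + 1), fun V _ _ hV H h3 h7 hH => ?_⟩
  have hN1 : N ≤ Fintype.card V := (le_max_left _ _).trans hV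
  have hN2 : ⌈12 / δ⌉₊ + ⌈2 / ε⌉₊ + 1 ≤ Fintype.card V := (le_max_right _ _).trans hV
  set n : ℝ := (Fintype.card V : ℝ) with hn
  have hN3 : 12 / δ + 2 / ε + 1 ≤ n := by
    have h1 : ((⌈12 / δ⌉₊ + ⌈2 / ε⌉₊ + 1 : ℕ) : ℝ) ≤ n := by rw [hn]; exact_mod_cast hN2
    push_cast at h1
    linarith [Nat.le_ceil (12 / δ), Nat.le_ceil (2 / ε)]
  have p1 : 0 < 12 / δ := by positivity
  have p2 : 0 < 2 / ε := by positivity
  have hn0 : 0 < n := by linarith
  have hδn : 12 ≤ δ * n := by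
    have : 12 / δ ≤ n := by linarith
    rw [div_le_iff₀ hδ] at this
    linarith
  have hεn : 2 ≤ ε * n := by
    have : 2 / ε ≤ n := by linarith
    rw [div_le_iff₀ hε] at this
    linarith
  obtain ⟨S, hS, hlink⟩ := sys_link H h3 h7
  have hS2 : (1 / 3 - δ) * n ^ 2 ≤ ∑ x, ∑ y, S.A x y := by
    have e1 : 12 * n ≤ δ * n ^ 2 := by nlinarith
    nlinarith
  obtain ⟨part, hp1, hp2⟩ := hN V hN1 S hS2
  refine ⟨part, hp1, ?_⟩
  have h1 := hlink part
  have e1 : 2 * n ≤ ε * n ^ 2 := by nlinarith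
  linarith

end Pool.Agent.Helper29.ST
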