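import Pool.Agent.Helper29.TC.Base

set_option autoImplicit false

/-! Stability: definitions. -/

namespace Pool.Agent.Helper29.ST

open Finset Pool.Agent.Helper18.SF Pool.Agent.Helper29.TC

variable {V : Type} [Fintype V] [DecidableEq V]

/-- The kernel is close to a half on the shadow: output of `half`, input of `part_of`. -/
structure HF (S : Sys V) (Z : Finset V) (t : ℝ) : Prop where
  hh : HH S (w S.A Z) t
  sy : ∑ x, ∑ y, |w S.A Z x y - w S.A Z y x| ≤ t * (Fintype.card V : ℝ) ^ 2
  ha : ∑ x, ∑ y, S.A x y * |w S.A Z x y - 1 / 2| ≤ t * (Fintype.card V : ℝ) ^ 2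

end Pool.Agent.Helper29.ST
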