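import Pool.Agent.Helper29.ST.Base
import Pool.Agent.Helper29.TC.Chain

set_option autoImplicit false

/-! The averaged kernel is nearly symmetric (helper89's argument, two scales).
`P` = averaging over the cells of `pat A Z`, `P'` for `Z'`; `w x y = (P A)(x, y)`, `w y x = (A P)(x, y)`.
`P A - P A P = P A (P' - P) + P A (1 - P')`; the first has square norm at most `q Z' - q Z`; the second
`P B'`, `B' = A (1 - P')`, has `‖P B'‖^2 = tr P B' B'^T ≤ √K ‖B' B'^T‖ ≤ √K √θ n^2` by `corr` with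
`T = univ` (K cells of `Z`, `K ≤ 2^|Z|`). -/

namespace Pool.Agent.Helper29.ST

open Finset Pool.Agent.Helper18.SF Pool.Agent.Helper29.TC

variable {V : Type} [Fintype V] [DecidableEq V]

/-- The double average of a symmetric kernel is symmetric. -/
theorem sym_dbl {α : Type} [DecidableEq α] (A : V → V → ℝ) (hs : ∀ x y, A x y = A y x)
    (c : V → α) (x y : V) :
    ce c (fun x' => ce c (A x') y) x = ce c (fun y' => ce c (A y') x) y := by
  unfold ce
  simp only [Finset.sum_div]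
  rw [Finset.sum_comm]
  refine sum_congr rfl fun y' _ => sum_congr rfl fun x' _ => ?_
  rw [hs x' y']
  ring

omit [DecidableEq V] in
theorem sym_ce_add {α : Type} [DecidableEq α] (c : V → α) (g h : V → ℝ) (x : V) :
    ce c (fun z => g z + h z) x = ce c g x + ce c h x := by
  unfold ce
  rw [sum_add_distrib, add_div]

omit [DecidableEq V] in
theorem sym_ce_sub {α : Type} [DecidableEq α] (c : V → α) (g h : V → ℝ) (x : V) :
    ce c (fun z => g z - h z) x = ce c g x - ce c h x := by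
  unfold ce
  rw [sum_sub_distrib, sub_div]

omit [DecidableEq V] in
/-- Cauchy-Schwarz for a double sum. -/
theorem sym_cs (p r : V → V → ℝ) :
    (∑ x, ∑ v, p x v * r x v) ^ 2 ≤ (∑ x, ∑ v, p x v ^ 2) * ∑ x, ∑ v, r x v ^ 2 := by
  have h := Finset.sum_mul_sq_le_sq_mul_sq (univ : Finset (V × V))
    (fun e => p e.1 e.2) (fun e => r e.1 e.2)
  simpa only [Fintype.sum_prod_type] using h

/-- Square norm of an averaged kernel through its correlations. -/
theorem sym_trace {α : Type} [DecidableEq α] (c : V → α) (B : V → V → ℝ) :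
    ∑ x, ∑ y, (ce c (fun x' => B x' y) x) ^ 2 =
      ∑ x, ∑ x', (if c x' = c x then 1 / ((cel c x).card : ℝ) else 0) * ∑ y, B x y * B x' y := by
  classical
  rw [sum_comm]
  have h1 : ∀ y, ∑ x, (ce c (fun x' => B x' y) x) ^ 2 =
      ∑ x, B x y * ce c (fun x' => B x' y) x := by
    intro y
    have := sum_ce_mul c (fun x' => B x' y) (ce c (fun x' => B x' y)) (fun z z' h => ce_congr h)
    rw [← this]
    exact sum_congr rfl fun x _ => sq _
  rw [sum_congr rfl fun y _ => h1 y, sum_comm]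
  refine sum_congr rfl fun x _ => ?_
  have h2 : ∀ y, B x y * ce c (fun x' => B x' y) x =
      ∑ x', (if c x' = c x then 1 / ((cel c x).card : ℝ) else 0) * (B x y * B x' y) := by
    intro y
    have : ce c (fun x' => B x' y) x =
        ∑ x', (if c x' = c x then 1 / ((cel c x).card : ℝ) else 0) * B x' y := by
      unfold ce
      rw [sum_div]
      unfold cel
      rw [sum_filter]
      refine sum_congr rfl fun x' _ => ?_
      split_ifs
      · ring
      · ring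
    rw [this, mul_sum]
    exact sum_congr rfl fun x' _ => by ring
  rw [sum_congr rfl fun y _ => h2 y, sum_comm]
  exact sum_congr rfl fun x' _ => by rw [mul_sum]

/-- The averaged rest of the fine partition is small. -/
theorem sym_fine (A : V → V → ℝ) (h01 : ∀ x y, A x y = 0 ∨ A x y = 1) (Z Z' : Finset V)
    (θ : ℝ) (hθ : 0 ≤ θ)
    (h1 : ∀ u, q A (insert u Z') - q A Z' ≤ θ * (Fintype.card V : ℝ) ^ 2) :
    ∑ x, ∑ y, (ce (pat A Z) (fun x' => A x' y - ce (pat A Z') (A x') y) x) ^ 2 ≤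
      2 ^ Z.card * Real.sqrt θ * (Fintype.card V : ℝ) ^ 2 := by
  classical
  set n : ℝ := (Fintype.card V : ℝ) with hn
  have hn0 : 0 ≤ n := Nat.cast_nonneg _
  set c := pat A Z with hc
  rw [sym_trace c (fun x y => A x y - ce (pat A Z') (A x) y)]
  set G : V → V → ℝ := fun x x' => ∑ y, (A x y - ce (pat A Z') (A x) y) *
    (A x' y - ce (pat A Z') (A x') y) with hG
  set p : V → V → ℝ := fun x x' => if c x' = c x then 1 / ((cel c x).card : ℝ) else 0 with hp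
  have hcs := sym_cs p G
  have hp2 : ∑ x, ∑ x', p x x' ^ 2 ≤ 2 ^ Z.card := by
    have h2 : ∀ x, ∑ x', p x x' ^ 2 = 1 / ((cel c x).card : ℝ) := by
      intro x
      have h3 : ∀ x', p x x' ^ 2 = if c x' = c x then (1 / ((cel c x).card : ℝ)) ^ 2 else 0 := by
        intro x'
        simp only [hp]
        split_ifs
        · rfl
        · norm_num
      rw [sum_congr rfl fun x' _ => h3 x', ← sum_filter, sum_const, nsmul_eq_mul]
      have h4 : ((univ.filter fun x' => c x' = c x).card : ℝ) = ((cel c x).card : ℝ) := rfl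
      rw [h4]
      have h5 := (cel_card_pos c x).ne'
      field_simp
    rw [sum_congr rfl fun x _ => h2 x, sum_inv_card c]
    exact card_pat_le A Z
  have hG2 : ∑ x, ∑ x', G x x' ^ 2 ≤ θ * n ^ 4 := by
    rw [sum_comm]
    calc ∑ u, ∑ v, G v u ^ 2 ≤ ∑ _u : V, n * (θ * n ^ 2) :=
          sum_le_sum fun u _ => by
            have h3 := corr A h01 Z' univ (fun _ _ _ => by simp) u
            refine h3.trans ?_
            rw [card_univ]
            exact mul_le_mul_of_nonneg_left (h1 u) hn0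
      _ = θ * n ^ 4 := by
          rw [sum_const, nsmul_eq_mul, card_univ]
          ring
  have hK1 : (1:ℝ) ≤ 2 ^ Z.card := one_le_pow₀ (by norm_num)
  refine abs_le_of_sq_le_sq' ?_ (by positivity) |>.2
  calc (∑ x, ∑ x', p x x' * G x x') ^ 2 ≤ (∑ x, ∑ x', p x x' ^ 2) * ∑ x, ∑ x', G x x' ^ 2 := hcs
    _ ≤ 2 ^ Z.card * (θ * n ^ 4) :=
        mul_le_mul hp2 hG2 (sum_nonneg fun x _ => sum_nonneg fun x' _ => sq_nonneg _)
          (by positivity)
    _ ≤ (2 ^ Z.card * 2 ^ Z.card) * (θ * n ^ 4) := by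
        refine mul_le_mul_of_nonneg_right ?_ (by positivity)
        nlinarith
    _ = (2 ^ Z.card) ^ 2 * (Real.sqrt θ) ^ 2 * (n ^ 2) ^ 2 := by
        rw [Real.sq_sqrt hθ]
        ring
    _ = (2 ^ Z.card * Real.sqrt θ * n ^ 2) ^ 2 := by ring

/-- Near symmetry of the averaged kernel. -/
theorem sym_bound (S : Sys V) (Z Z' : Finset V) (hZ : Z ⊆ Z') (ε θ : ℝ) (hε : 0 ≤ ε) (hθ : 0 ≤ θ)
    (h1 : ∀ u, q S.A (insert u Z') - q S.A Z' ≤ θ * (Fintype.card V : ℝ) ^ 2)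
    (h2 : q S.A Z' - q S.A Z ≤ ε * (Fintype.card V : ℝ) ^ 2) :
    ∑ x, ∑ y, |w S.A Z x y - w S.A Z y x| ≤
      2 * Real.sqrt (2 * (ε + 2 ^ Z.card * Real.sqrt θ)) * (Fintype.card V : ℝ) ^ 2 := by
  classical
  set n : ℝ := (Fintype.card V : ℝ) with hn
  have hn0 : 0 ≤ n := Nat.cast_nonneg _
  set c := pat S.A Z with hc
  set c' := pat S.A Z' with hc'
  set E : V → V → ℝ := fun x y => w S.A Z x y - ce c (fun x' => ce c (S.A x') y) x with hE
  set F : V → V → ℝ := fun x y => ce c (fun x' => S.A x' y - ce c' (S.A x') y) x with hF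
  set G : V → V → ℝ := fun x y => ce c (fun x' => ce c' (S.A x') y - ce c (S.A x') y) x with hG
  have hEFG : ∀ x y, E x y = F x y + G x y := by
    intro x y
    have e1 : w S.A Z x y = ce c (fun x' => S.A x' y) x := by
      unfold w
      rw [← hc]
      congr 1
      funext x'
      exact S.symm y x'
    simp only [hE, hF, hG]
    rw [e1, ← sym_ce_sub, ← sym_ce_add]
    congr 1
    funext x'
    ring
  have hF2 : ∑ x, ∑ y, F x y ^ 2 ≤ 2 ^ Z.card * Real.sqrt θ * n ^ 2 :=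
    sym_fine S.A S.h01 Z Z' θ hθ h1
  have hG2 : ∑ x, ∑ y, G x y ^ 2 ≤ ε * n ^ 2 := by
    refine le_trans ?_ h2
    rw [q_sub S.A hZ, sum_comm]
    rw [sum_comm (f := fun v z => (ce (pat S.A Z') (S.A v) z - ce (pat S.A Z) (S.A v) z) ^ 2)]
    exact sum_le_sum fun y _ => sum_sq_ce_le c (fun x' => ce c' (S.A x') y - ce c (S.A x') y)
  have hE2 : ∑ x, ∑ y, E x y ^ 2 ≤ 2 * (ε + 2 ^ Z.card * Real.sqrt θ) * n ^ 2 := by
    have h3 : ∑ x, ∑ y, E x y ^ 2 ≤ ∑ x, ∑ y, (2 * F x y ^ 2 + 2 * G x y ^ 2) := by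
      refine sum_le_sum fun x _ => sum_le_sum fun y _ => ?_
      rw [hEFG]
      nlinarith [sq_nonneg (F x y - G x y)]
    have h4 : ∑ x, ∑ y, (2 * F x y ^ 2 + 2 * G x y ^ 2) =
        2 * ∑ x, ∑ y, F x y ^ 2 + 2 * ∑ x, ∑ y, G x y ^ 2 := by
      simp only [sum_add_distrib, ← mul_sum]
    rw [h4] at h3
    have : 2 * (ε + 2 ^ Z.card * Real.sqrt θ) * n ^ 2 =
        2 * (2 ^ Z.card * Real.sqrt θ * n ^ 2) + 2 * (ε * n ^ 2) := by ring
    rw [this]
    linarith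
  have hE1 : ∑ x, ∑ y, |E x y| ≤ Real.sqrt (2 * (ε + 2 ^ Z.card * Real.sqrt θ)) * n ^ 2 := by
    have hcs := sym_cs (fun _ _ => (1:ℝ)) (fun x y => |E x y|)
    simp only [one_mul, one_pow, sq_abs] at hcs
    have h5 : (∑ _x : V, ∑ _v : V, (1 : ℝ)) = n ^ 2 := by
      simp [hn, sq]
    rw [h5] at hcs
    have h6 : 0 ≤ 2 * (ε + 2 ^ Z.card * Real.sqrt θ) := by positivity
    refine abs_le_of_sq_le_sq' ?_ (by positivity) |>.2
    calc (∑ x, ∑ y, |E x y|) ^ 2 ≤ n ^ 2 * ∑ x, ∑ y, E x y ^ 2 := hcs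
      _ ≤ n ^ 2 * (2 * (ε + 2 ^ Z.card * Real.sqrt θ) * n ^ 2) :=
          mul_le_mul_of_nonneg_left hE2 (by positivity)
      _ = Real.sqrt (2 * (ε + 2 ^ Z.card * Real.sqrt θ)) ^ 2 * (n ^ 2) ^ 2 := by
          rw [Real.sq_sqrt h6]
          ring
      _ = _ := by ring
  have hpt : ∀ x y, |w S.A Z x y - w S.A Z y x| ≤ |E x y| + |E y x| := by
    intro x y
    have e2 := sym_dbl S.A S.symm c x y
    have e3 : w S.A Z x y - w S.A Z y x = E x y - E y x := by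
      simp only [hE]
      rw [e2]
      ring
    rw [e3]
    exact abs_sub _ _
  calc ∑ x, ∑ y, |w S.A Z x y - w S.A Z y x| ≤ ∑ x, ∑ y, (|E x y| + |E y x|) :=
        sum_le_sum fun x _ => sum_le_sum fun y _ => hpt x y
    _ = ∑ x, ∑ y, |E x y| + ∑ x, ∑ y, |E y x| := by
        simp only [sum_add_distrib]
    _ = 2 * ∑ x, ∑ y, |E x y| := by
        rw [sum_comm (f := fun x y => |E y x|)]
        ring
    _ ≤ 2 * (Real.sqrt (2 * (ε + 2 ^ Z.card * Real.sqrt θ)) * n ^ 2) := by linarith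
    _ = _ := by ring

/-- The partition with all estimates of the bound and near symmetry, one error `e`. -/
theorem chain_base2 (e : ℝ) (he : 0 < e) (he1 : e ≤ 1) : ∃ N : ℕ,
    ∀ (V : Type) [Fintype V] [DecidableEq V], N ≤ Fintype.card V → ∀ S : Sys V,
      1 ≤ e * (Fintype.card V : ℝ) ∧ ∃ Z : Finset V,
      (∀ (l : V → ℝ) (L : ℝ), 0 ≤ L → (∀ x, 0 ≤ l x) → (∀ x, l x ≤ L) →
        (∀ x x', pat S.A Z x = pat S.A Z x' → l x = l x') →
        ∑ x, l x * ∑ y, (w S.A Z x y) ^ 2 ≤ (1 / 2) * ∑ x, l x * ∑ y, w S.A Z x y +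
          L * (e * (Fintype.card V : ℝ) ^ 2)) ∧
      (∑ x, ∑ x', S.A x x' * ∑ y, w S.A Z x y * w S.A Z x' y ≤
        ∑ x, ∑ x', S.A x x' * ∑ y, S.A y x * S.A y x' + e * (Fintype.card V : ℝ) ^ 3) ∧
      (∑ x, (∑ y, S.A x y) ^ 2 ≤ ∑ x, (∑ y, w S.A Z x y) ^ 2 + e * (Fintype.card V : ℝ) ^ 3) ∧
      ∑ x, ∑ y, |w S.A Z x y - w S.A Z y x| ≤ e * (Fintype.card V : ℝ) ^ 2 := by
  obtain ⟨M, hM⟩ := two_scale ((e ^ 2 / 32) ^ 2) (by positivity)
    (fun k => (e ^ 2 / 16 / 2 ^ k) ^ 2) (fun k => by positivity)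
  refine ⟨⌈2 * 2 ^ M / e⌉₊ + 1, ?_⟩
  intro V _ _ hV S
  have hn0 : (0:ℝ) ≤ Fintype.card V := Nat.cast_nonneg _
  have hN : 2 * 2 ^ M / e ≤ (Fintype.card V : ℝ) := by
    have h1 : ((⌈2 * 2 ^ M / e⌉₊ + 1 : ℕ) : ℝ) ≤ (Fintype.card V : ℝ) := by exact_mod_cast hV
    push_cast at h1
    linarith [Nat.le_ceil (2 * 2 ^ M / e)]
  rw [div_le_iff₀ he] at hN
  have hM1 : (1:ℝ) ≤ 2 ^ M := one_le_pow₀ (by norm_num)
  refine ⟨by nlinarith, ?_⟩
  obtain ⟨Z, Z', hZ, hZM, h0, h1, h2⟩ := hM V S.A S.h01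
  refine ⟨Z, ?_, ?_, ?_, ?_⟩
  · intro l L hL hl0 hl1 hlc
    have hd := dev_bound S Z Z' hZ ((e ^ 2 / 32) ^ 2) ((e ^ 2 / 16 / 2 ^ Z.card) ^ 2)
      (by positivity) (by positivity) h1 h2
    rw [Real.sqrt_sq (by positivity), Real.sqrt_sq (by positivity)] at hd
    have ht := twin S Z (e / 4) _ (by positivity) hd l hl0 L hL hl1 hlc
    refine ht.trans (add_le_add le_rfl (mul_le_mul_of_nonneg_left ?_ hL))
    have hp : (2:ℝ) ^ Z.card ≤ 2 ^ M := pow_le_pow_right₀ (by norm_num) hZM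
    have hp0 : (0:ℝ) < 2 ^ Z.card := by positivity
    have e1 : (2 ^ Z.card * (e ^ 2 / 16 / 2 ^ Z.card) + 2 * (e ^ 2 / 32)) *
        (Fintype.card V : ℝ) ^ 2 / (e / 4) = e / 2 * (Fintype.card V : ℝ) ^ 2 := by
      field_simp
      ring
    rw [e1]
    have e2 : (Fintype.card V : ℝ) * 2 ^ Z.card / 2 ≤ e / 4 * (Fintype.card V : ℝ) ^ 2 := by
      have e3 : (2:ℝ) ^ Z.card ≤ e / 2 * (Fintype.card V : ℝ) := by nlinarith
      nlinarith
    linarith
  · refine (tri_compare S Z _ (by positivity) h0).trans (add_le_add le_rfl ?_)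
    rw [Real.sqrt_sq (by positivity)]
    have : 2 * (e ^ 2 / 16 / 2 ^ 0) ≤ e := by
      norm_num
      nlinarith
    exact mul_le_mul_of_nonneg_right this (by positivity)
  · refine (deg_compare S Z _ (by positivity) h0).trans (add_le_add le_rfl ?_)
    rw [Real.sqrt_sq (by positivity)]
    have : (e ^ 2 / 16 / 2 ^ 0) ≤ e := by
      norm_num
      nlinarith
    exact mul_le_mul_of_nonneg_right this (by positivity)
  · refine (sym_bound S Z Z' hZ ((e ^ 2 / 32) ^ 2) ((e ^ 2 / 16 / 2 ^ Z.card) ^ 2)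
      (by positivity) (by positivity) h1 h2).trans ?_
    refine mul_le_mul_of_nonneg_right ?_ (by positivity)
    rw [Real.sqrt_sq (by positivity)]
    have hp0 : (0:ℝ) < 2 ^ Z.card := by positivity
    have e1 : 2 ^ Z.card * (e ^ 2 / 16 / 2 ^ Z.card) = e ^ 2 / 16 := by
      field_simp
    rw [e1]
    have e2 : 2 * ((e ^ 2 / 32) ^ 2 + e ^ 2 / 16) ≤ (e / 2) ^ 2 := by
      have e3 : e ^ 2 ≤ 1 := by nlinarith
      nlinarith [sq_nonneg e]
    have e4 : Real.sqrt (2 * ((e ^ 2 / 32) ^ 2 + e ^ 2 / 16)) ≤ e / 2 :=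
      Real.sqrt_le_iff.2 ⟨by positivity, e2⟩
    linarith

theorem chain2 (η : ℝ) (hη : 0 < η) : ∃ δ : ℝ, 0 < δ ∧ ∃ N : ℕ,
    ∀ (V : Type) [Fintype V] [DecidableEq V], N ≤ Fintype.card V → ∀ S : Sys V,
      (1 / 3 - δ) * (Fintype.card V : ℝ) ^ 2 ≤ ∑ x, ∑ y, S.A x y →
      ∃ Z : Finset V, CC S Z η ∧
        ∑ x, ∑ y, |w S.A Z x y - w S.A Z y x| ≤ η * (Fintype.card V : ℝ) ^ 2 := by
  set η0 : ℝ := min η 1 with hη0
  have h0 : 0 < η0 := lt_min hη one_pos
  have h1 : η0 ≤ 1 := min_le_right _ _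
  have hle : η0 ≤ η := min_le_left _ _
  obtain ⟨N, hN⟩ := chain_base2 (η0 / 100) (by positivity) (by linarith)
  refine ⟨η0 / 100, by positivity, max N (⌈600 / η0⌉₊ + 1), ?_⟩
  intro V _ _ hV S hm
  obtain ⟨-, Z, ht, ha, hb, hsy⟩ := hN V ((le_max_left _ _).trans hV) S
  have hV6 : 600 / η0 ≤ (Fintype.card V : ℝ) := by
    have h2 : ((⌈600 / η0⌉₊ + 1 : ℕ) : ℝ) ≤ (Fintype.card V : ℝ) := by
      exact_mod_cast (le_max_right _ _).trans hV
    push_cast at h2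
    linarith [Nat.le_ceil (600 / η0)]
  have hn : 0 < (Fintype.card V : ℝ) := lt_of_lt_of_le (by positivity) hV6
  rw [div_le_iff₀ h0] at hV6
  set n : ℝ := (Fintype.card V : ℝ) with hnd
  have hn3 : 0 < n ^ 3 := by positivity
  have hn2 : 0 < n ^ 2 := by positivity
  have hw0 : ∀ x y, 0 ≤ w S.A Z x y := fun x y => w_nonneg S Z x y
  have hw1 : ∀ x y, w S.A Z x y ≤ 1 := fun x y => w_le_one S Z x y
  have hDb0 : ∀ x, 0 ≤ ∑ y, w S.A Z x y := fun x => sum_nonneg fun y _ => hw0 x y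
  have hDb1 : ∀ x, ∑ y, w S.A Z x y ≤ n := fun x => by
    calc ∑ y, w S.A Z x y ≤ ∑ _y : V, (1:ℝ) := sum_le_sum fun y _ => hw1 x y
      _ = n := by simp [hnd]
  have hDbc : ∀ x x', pat S.A Z x = pat S.A Z x' → ∑ y, w S.A Z x y = ∑ y, w S.A Z x' y :=
    fun x x' h => sum_congr rfl fun y _ => ce_congr h
  have hR := ht (fun x => ∑ y, w S.A Z x y) n hn.le hDb0 hDb1 hDbc
  have hm1 : ∑ x, ∑ y, S.A x y ≤ n ^ 2 := by
    calc ∑ x, ∑ y, S.A x y ≤ ∑ _x : V, ∑ _y : V, (1:ℝ) :=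
          sum_le_sum fun x _ => sum_le_sum fun y _ => S.A_le_one x y
      _ = n ^ 2 := by simp [hnd, sq]
  have hG0 : 0 ≤ ∑ x, ∑ x', S.A x x' *
      ∑ y, (w S.A Z x y + w S.A Z x' y + w S.A Z (S.f x x') y - 1) ^ 2 :=
    sum_nonneg fun x _ => sum_nonneg fun x' _ => mul_nonneg (S.A_nonneg _ _)
      (sum_nonneg fun y _ => sq_nonneg _)
  have hcd := chain_cd S
  have hcs : (∑ x, ∑ y, S.A x y) ^ 2 ≤ n * ∑ x, (∑ y, w S.A Z x y) ^ 2 := by
    rw [← chain_total S Z]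
    have := sq_sum_le_card_mul_sum_sq (s := (univ : Finset V)) (f := fun x => ∑ y, w S.A Z x y)
    rw [card_univ] at this
    exact this
  have e1 : ∑ x, ((∑ y, S.A x y) ^ 2 / 4 + ∑ y, S.A x y) =
      (∑ x, (∑ y, S.A x y) ^ 2) / 4 + ∑ x, ∑ y, S.A x y := by
    rw [sum_add_distrib, sum_div]
  have e2 : (1 / 2) * ∑ x, (∑ y, w S.A Z x y) * ∑ y, w S.A Z x y =
      (∑ x, (∑ y, w S.A Z x y) ^ 2) / 2 := by
    rw [mul_comm, mul_one_div]
    congr 1
    exact sum_congr rfl fun x _ => (sq _).symm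
  rw [e1] at hcd
  rw [e2] at hR
  have hR' : ∑ x, (∑ y, w S.A Z x y) * ∑ y, (w S.A Z x y) ^ 2 ≤
      (∑ x, (∑ y, w S.A Z x y) ^ 2) / 2 + η0 / 100 * n ^ 3 := by
    refine hR.trans (le_of_eq ?_)
    ring
  obtain ⟨k1, k2, k3, k4, k5⟩ := chain_alg η0 (η0 / 100) (η0 / 100) n _ _ _ _ _ _ _ h0 h1 rfl rfl hn
    (by linarith) hm1 hG0 (chain_expand S Z) hR' ha hcd hb hcs hm
  have up : ∀ t : ℝ, t ≤ η0 * n ^ 3 → t ≤ η * n ^ 3 := fun t h =>
    h.trans (mul_le_mul_of_nonneg_right hle hn3.le)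
  refine ⟨Z, ⟨up _ k1, up _ ?_, up _ ?_, up _ ?_, ?_, ?_, up _ ?_, ?_⟩,
    hsy.trans (mul_le_mul_of_nonneg_right (by linarith) hn2.le)⟩
  · refine le_trans (le_of_eq ?_) k2
    change ∑ x, (∑ y, w S.A Z x y - n / 3) ^ 2 = _
    have : ∀ x, (∑ y, w S.A Z x y - n / 3) ^ 2 =
        (∑ y, w S.A Z x y) ^ 2 - 2 * (n / 3) * (∑ y, w S.A Z x y) + (n / 3) ^ 2 := fun x => by ring
    simp_rw [this]
    rw [sum_add_distrib, sum_sub_distrib, ← mul_sum, chain_total S Z]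
    simp only [sum_const, card_univ, nsmul_eq_mul]
    ring
  · refine le_trans (le_of_eq ?_) k3
    change ∑ x, (∑ y, S.A x y - n / 3) ^ 2 = _
    have : ∀ x, (∑ y, S.A x y - n / 3) ^ 2 =
        (∑ y, S.A x y) ^ 2 - 2 * (n / 3) * (∑ y, S.A x y) + (n / 3) ^ 2 := fun x => by ring
    simp_rw [this]
    rw [sum_add_distrib, sum_sub_distrib, ← mul_sum]
    simp only [sum_const, card_univ, nsmul_eq_mul]
    ring
  · linarith
  · intro l hl0 hl1 hlc
    refine (ht l 1 zero_le_one hl0 hl1 hlc).trans (add_le_add le_rfl ?_)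
    rw [one_mul]
    exact mul_le_mul_of_nonneg_right (by linarith) hn2.le
  · refine ha.trans (add_le_add le_rfl ?_)
    exact mul_le_mul_of_nonneg_right (by linarith) hn3.le
  · rw [e1]; exact k5
  · nlinarith

end Pool.Agent.Helper29.ST
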